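import Pool.Agent.WarS.Stmts

/-!
# Simultaneous Waring decompositions (MP_db021c_ag), few forms: the module HD   (helper9)

General double points, general simple points and points which are double along the hyperplane.
-/

set_option autoImplicit false

open Module MvPolynomial
open Pool.Agent.War

namespace Pool.Agent.WarS

namespace HDaux

theorem PK_DblH (n d y : ℕ) {I : Type} [Finite I] (P : Finset I) :
    PK fun x : (I → Fin (n + 1) → ℂ) × (Fin y → Fin n → ℂ) => DblH n d P x.1 x.2 := by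
  have h1 := PK.comp (K := ℂ) (Y := (I → Fin (n + 1) → ℂ) × (Fin y → Fin n → ℂ))
    (PK_Dbl (n + 1) d P) (LinearMap.fst ℂ (I → Fin (n + 1) → ℂ) (Fin y → Fin n → ℂ))
  have h2 := PK.comp (K := ℂ) (Y := (I → Fin (n + 1) → ℂ) × (Fin y → Fin n → ℂ))
    (PK_Dbl n d (Finset.univ : Finset (Fin y)))
    (LinearMap.snd ℂ (I → Fin (n + 1) → ℂ) (Fin y → Fin n → ℂ))
  exact h1.inf (h2.comap (resL n d))

/-- the degree goes up by one -/
theorem step {n d y : ℕ} {J : Type} (P : Finset J) (w : J → Fin (n + 1) → ℂ)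
    (z : Fin y → Fin n → ℂ) (hw : ∀ i, w i 0 ≠ 0) (h0 : Dbl (n + 1) d P w = ⊥) :
    finrank ℂ (DblH n (d + 1) P w z) ≤ finrank ℂ (Dbl n (d + 1) Finset.univ z) := by
  have h1 := finrank_le_map_add_ker (resL n (d + 1)) (DblH n (d + 1) P w z)
  have h2 : finrank ℂ ((DblH n (d + 1) P w z).map (resL n (d + 1))) ≤
      finrank ℂ (Dbl n (d + 1) Finset.univ z) := by
    refine Submodule.finrank_mono ?_
    rintro _ ⟨f, hf, rfl⟩
    exact hf.2
  have h3 : finrank ℂ ↥(DblH n (d + 1) P w z ⊓ LinearMap.ker (resL n (d + 1))) ≤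
      finrank ℂ (Dbl (n + 1) d P w) := by
    refine finrank_inf_ker_le _ _ fun g hg => ?_
    obtain ⟨⟨g1, g2⟩, -⟩ := hg
    refine ⟨fun i => ?_, fun i hi k => ?_⟩
    · have h4 := g1 i
      rw [eval_mulX] at h4
      exact (mul_eq_zero.1 h4).resolve_left (hw i)
    · exact (off_hyp (hw i) (g1 i) (g2 i hi)).2 k
  rw [h0, finrank_bot] at h3
  omega

end HDaux

theorem HD (hSG : S_SG) : S_HD := by
  classical
  intro n d y I _ P hn hP hy hnum
  have hPle : (n + 1 + 1) * P.card ≤ NN (n + 1) d := hP.le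
  have hPI : P.card ≤ Fintype.card I := Finset.card_le_univ P
  have e0 : (n + 1 + 1) * P.card = (n + 1) * P.card + P.card := by ring
  -- the points of `J`
  obtain ⟨J, hPJ, -, hJ⟩ := Finset.exists_subsuperset_card_eq (Finset.subset_univ P)
    (n := P.card + (NN (n + 1) d - (n + 1 + 1) * P.card)) (by omega) (by
      rw [Finset.card_univ]; omega)
  let P' : Finset {i // i ∈ J} := P.subtype (fun i => i ∈ J)
  have hP'c : P'.card = P.card := by
    rw [Finset.card_subtype, Finset.filter_true_of_mem fun i hi => hPJ hi]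
  have hJc : Fintype.card {i // i ∈ J} = J.card := Fintype.card_coe J
  have g1 := hSG (n + 1) d {i // i ∈ J} P' (by omega) (by rw [hP'c]; exact hP)
  obtain ⟨w, hw1, hw2⟩ := (g1.and (gen_off (n := n) (I := {i // i ∈ J}))).exists
  have hw0 : Dbl (n + 1) d P' w = ⊥ := by
    apply Submodule.finrank_eq_zero.1
    rw [hP'c, hJc, hJ] at hw1
    omega
  obtain ⟨z, hz⟩ := hy
  have hE := HDaux.step P' w z hw2 hw0
  -- the other simple points
  obtain ⟨v, hv⟩ := red (Y := Fin (n + 1) → ℂ) (fun v => ev (n + 1) (d + 1) v)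
    (DblH n (d + 1) P' w z) ⊥ (by
      intro f _ hf
      by_contra hc
      push Not at hc
      apply hf
      rw [Submodule.mem_bot]
      apply Subtype.ext
      apply MvPolynomial.funext
      intro x
      have := hc x
      rw [ev_apply] at this
      rw [this]
      simp) (Fintype.card I - J.card)
  rw [finrank_bot, Nat.max_zero] at hv
  have e2 : Fintype.card {i // ¬ i ∈ J} = Fintype.card I - J.card := by
    rw [Fintype.card_subtype_compl, hJc]
  let b : {i // ¬ i ∈ J} ≃ Fin (Fintype.card I - J.card) := Fintype.equivFinOfCardEq e2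
  let x₀ : I → Fin (n + 1) → ℂ := fun i => if hi : i ∈ J then w ⟨i, hi⟩ else v (b ⟨i, hi⟩)
  have key : ∀ i : {i // i ∈ J}, x₀ i.1 = w i := by
    intro i
    simp only [x₀]
    rw [dif_pos i.2]
  have hle : DblH n (d + 1) P x₀ z ≤
      DblH n (d + 1) P' w z ⊓ ⨅ i, LinearMap.ker (ev (n + 1) (d + 1) (v i)) := by
    rintro f ⟨⟨f1, f2⟩, f3⟩
    refine ⟨⟨⟨fun i => ?_, fun i hi k => ?_⟩, f3⟩, ?_⟩
    · have := f1 i.1
      rwa [key] at this
    · have := f2 i.1 (Finset.mem_subtype.1 hi) k
      rwa [key] at this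
    · rw [SetLike.mem_coe, Submodule.mem_iInf]
      intro i
      rw [LinearMap.mem_ker, ev_apply]
      have := f1 (b.symm i).1
      simp only [x₀] at this
      rw [dif_neg (b.symm i).2] at this
      simpa using this
  refine (HDaux.PK_DblH n (d + 1) y P).gen_finrank (x₀ := (x₀, z))
    ((Submodule.finrank_mono hle).trans (hv.trans ?_))
  have hs := NN_succ n d
  have hJI : J.card ≤ Fintype.card I := Finset.card_le_univ J
  have hyle : (n + 1) * y ≤ NN n (d + 1) := by omega
  omega

end Pool.Agent.WarS
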