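import Pool.Agent.WarS.Stmts
import Pool.Agent.War.AR

/-!
# Simultaneous Waring decompositions (MP_db021c_ag), few forms: the choice of the numbers (NUM)

helper59
-/

set_option autoImplicit false

open Pool.Agent.War

namespace Pool.Agent.WarS

namespace NumAux

/-- the balanced distribution of K into r parts -/
theorem sum_bal (r q m : ℕ) (hm : m ≤ r) :
    ∑ i : Fin r, (q + if i.val < m then 1 else 0) = r * q + m := by
  rw [Finset.sum_add_distrib, Finset.sum_const, Finset.card_univ, Fintype.card_fin, smul_eq_mul]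
  congr 1
  rw [Fin.sum_univ_eq_sum_range (fun i => if i < m then 1 else 0) r, ← Finset.sum_filter,
    Finset.sum_const, smul_eq_mul, mul_one]
  have h1 : (Finset.range r).filter (fun i => i < m) = Finset.range m := by
    ext i
    simp only [Finset.mem_filter, Finset.mem_range]
    omega
  rw [h1, Finset.card_range]

theorem NN_ratio (n d : ℕ) : NN n d * (n + d + 1) = NN n (d + 1) * (d + 1) := by
  have h := Nat.choose_mul_succ_eq (n + d) n
  have h1 : n + d + 1 - n = d + 1 := by omega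
  rw [h1] at h
  exact h

/-- the arithmetic -/
theorem core (n r u y m μ p0 e0 q rem σ A2 A1 A0 B B1 h : ℕ) (hn : 1 ≤ n) (hr : 1 ≤ r)
    (_hrn : r ≤ n) (hB : B = (n + r + 1) * u + y) (hA2 : A2 = B + A1) (hA1 : A1 = B1 + A0)
    (hh : (n + r + 2) * h = (r + 1) * A2 + σ) (hσ : σ < n + r + 2)
    (hm : h = (r + 1) * u + y + m) (hμ : A1 = m + μ)
    (hp0 : μ = (n + 1) * y + u + (n + 1) * p0 + e0) (he0 : e0 ≤ n)
    (hK : m = p0 + (r * q + rem)) (hrem : rem < r) (hu : 3 * n + 3 ≤ u)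
    (hB1 : u + (n + 1) * y + n + 1 ≤ B1) :
    (∀ p, (p = p0 ∨ p = q ∨ p = q + 1) → A0 ≤ (n + 1) * p + m) ∧
    (n + 1) * p0 + m + (n + 1) * y + u ≤ A1 ∧
    (∀ p, (p = p0 ∨ p = q ∨ p = q + 1) → (n + 1) * p ≤ μ) ∧
    (∀ p, (n + 1) * p ≤ μ → (n + 3) * p ≤ A2) := by
  -- the identity r μ + σ + e0 = (n+1) K + r u
  have e1 : r * μ + σ + e0 = (n + 1) * (r * q + rem) + r * u := by
    have h1 : (n + r + 2) * ((r + 1) * u + y + m) = (r + 1) * (B + A1) + σ := by
      rw [← hm, ← hA2, hh]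
    rw [hB] at h1
    zify at h1 hμ hp0 hK ⊢
    have h2 : (A1 : ℤ) = m + μ := hμ
    rw [h2] at h1
    linear_combination (-1 : ℤ) * h1 + (n + 1 : ℤ) * hK - hp0
  have e2 : (n + r + 2) * μ + σ = (n + 1) * A1 + (r + 1) * u + (n + 1) * y := by
    have h1 : (n + r + 2) * ((r + 1) * u + y + m) = (r + 1) * (B + A1) + σ := by
      rw [← hm, ← hA2, hh]
    rw [hB] at h1
    zify at h1 hμ ⊢
    linear_combination (-1 : ℤ) * h1 + (n + r + 2 : ℤ) * hμ * (-1)
  have hq1 : (n + 1) * (q + 1) ≤ μ := by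
    have h1 : r * ((n + 1) * (q + 1)) ≤ r * μ := by
      have h2 : σ + e0 + r * (n + 1) ≤ r * u := by
        have h3 : r * (3 * n + 3) ≤ r * u := Nat.mul_le_mul_left r hu
        nlinarith
      nlinarith [Nat.zero_le ((n + 1) * rem)]
    exact Nat.le_of_mul_le_mul_left h1 (by omega)
  have hq2 : μ ≤ (n + 1) * q + (n + 1) + u := by
    have h1 : r * μ ≤ r * ((n + 1) * q + (n + 1) + u) := by
      have h2 : (n + 1) * rem ≤ (n + 1) * r := Nat.mul_le_mul_left _ hrem.le
      nlinarith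
    exact Nat.le_of_mul_le_mul_left h1 (by omega)
  refine ⟨?_, ?_, ?_, ?_⟩
  · rintro p (rfl | rfl | rfl)
    · have : μ ≤ (n + 1) * p + B1 := by linarith
      omega
    · have : μ ≤ (n + 1) * p + B1 := by linarith [Nat.zero_le ((n + 1) * y)]
      omega
    · have : μ ≤ (n + 1) * (q + 1) + B1 := by
        have h2 : (n + 1) * (q + 1) = (n + 1) * q + (n + 1) := by ring
        linarith [Nat.zero_le ((n + 1) * y)]
      omega
  · linarith
  · rintro p (rfl | rfl | rfl)
    · linarith [Nat.zero_le ((n + 1) * y)]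
    · exact (Nat.mul_le_mul_left _ (Nat.le_succ _)).trans hq1
    · exact hq1
  · intro p hp
    have h1 : (n + 1) * ((n + r + 2) * p) ≤ (n + 1) * A2 := by
      have h2 : (n + r + 2) * ((n + 1) * p) ≤ (n + r + 2) * μ := Nat.mul_le_mul_left _ hp
      have h3 : (r + 1) * u ≤ (n + 1) * ((n + r + 1) * u) := by
        rw [← mul_assoc]
        refine Nat.mul_le_mul_right _ ?_
        nlinarith
      rw [hA2, hB]
      nlinarith
    have h2 : (n + r + 2) * p ≤ A2 := Nat.le_of_mul_le_mul_left h1 (by omega)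
    have h3 : (n + 3) * p ≤ (n + r + 2) * p := Nat.mul_le_mul_right _ (by omega)
    exact h3.trans h2

end NumAux

open NumAux in
theorem NUM : S_NUM := by
  intro n d r hn hr hrn hd h hh1 hh2
  obtain ⟨k, rfl⟩ : ∃ k, n = k + 1 := ⟨n - 1, by omega⟩
  set n := k + 1 with hndef
  set B := NN n (d + 2) with hB
  set B1 := NN n (d + 1) with hB1
  set A2 := NN (n + 1) (d + 2) with hA2
  set A1 := NN (n + 1) (d + 1) with hA1
  set A0 := NN (n + 1) d with hA0
  have r2 : A2 = B + A1 := NN_succ n (d + 1)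
  have r1 : A1 = B1 + A0 := NN_succ n d
  -- sizes
  have s1 : d + 3 ≤ B := AR_ge k (d + 2)
  have s2 : B ≤ 2 * B1 := by
    have h1 := NN_ratio n (d + 1)
    rw [← hB1, show d + 1 + 1 = d + 2 by ring, ← hB] at h1
    have h2 : n + (d + 1) + 1 ≤ 2 * (d + 2) := by nlinarith
    have h3 : B * (d + 2) ≤ B1 * (2 * (d + 2)) := by
      rw [← h1]
      exact Nat.mul_le_mul_left _ h2
    have h4 : B * (d + 2) ≤ (2 * B1) * (d + 2) := by
      calc B * (d + 2) ≤ B1 * (2 * (d + 2)) := h3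
        _ = (2 * B1) * (d + 2) := by ring
    exact Nat.le_of_mul_le_mul_right h4 (by omega)
  set u := B / (n + r + 1) with hu
  set y := B % (n + r + 1) with hy
  have hBuy : B = (n + r + 1) * u + y := (Nat.div_add_mod B (n + r + 1)).symm
  have hyle : y ≤ n + r := Nat.lt_succ_iff.1 (Nat.mod_lt B (by omega))
  have h3u : 3 * u ≤ B := by
    have h1 : 3 * u ≤ (n + r + 1) * u := Nat.mul_le_mul_right _ (by omega)
    omega
  have hsz : 4 * (n + 1) ^ 2 * (n + 3) ≤ B := hd.trans s1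
  have hcub : 6 * (4 * n ^ 2 + 2 * n + 2) ≤ B := by
    refine le_trans ?_ hsz
    have h1 : n ^ 2 ≤ n ^ 3 := Nat.pow_le_pow_right (by omega) (by norm_num)
    nlinarith
  have hF : u + (4 * n ^ 2 + 2 * n + 2) ≤ B1 := by omega
  have hu3 : 3 * n + 3 ≤ u := by
    by_contra hc
    push Not at hc
    have h1 : (n + r + 1) * u ≤ (2 * n + 1) * (3 * n + 2) := Nat.mul_le_mul (by omega) (by omega)
    nlinarith
  have hyn : y ≤ 2 * n := by omega
  have hB1' : u + (n + 1) * y + n + 1 ≤ B1 := by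
    have h1 : (n + 1) * y ≤ (n + 1) * (2 * n) := Nat.mul_le_mul_left _ hyn
    nlinarith
  -- σ
  obtain ⟨σ, hσ⟩ := Nat.exists_eq_add_of_le hh1
  have hσ2 : σ < n + r + 2 := by omega
  -- m
  have hm0 : (r + 1) * u + y ≤ h := by
    have h1 : (n + r + 2) * ((r + 1) * u + y) ≤ (n + r + 2) * h := by
      rw [hσ, r2, hBuy]
      have h2 : (r + 1) * (u + (n + 1) * y) ≤ (r + 1) * A1 :=
        Nat.mul_le_mul_left _ (by omega)
      have h3 : 0 ≤ r * ((n + 1) * y) := Nat.zero_le _
      nlinarith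
    exact Nat.le_of_mul_le_mul_left h1 (by omega)
  obtain ⟨m, hm⟩ := Nat.exists_eq_add_of_le hm0
  have e3 : (n + r + 2) * m + (r + 1) * u + (n + 1) * y = (r + 1) * A1 + σ := by
    have h1 : (n + r + 2) * ((r + 1) * u + y + m) = (r + 1) * (B + A1) + σ := by
      rw [← hm, ← r2, hσ]
    rw [hBuy] at h1
    zify at h1 ⊢
    linear_combination h1
  -- μ
  have hμ0 : m ≤ A1 := by
    have h1 : (n + r + 2) * m ≤ (n + r + 2) * A1 := by
      have h2 : σ ≤ (n + 1) * A1 := by
        have h3 : (n + 1) * (2 * n + 2) ≤ (n + 1) * A1 := Nat.mul_le_mul_left _ (by nlinarith)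
        nlinarith
      nlinarith [Nat.zero_le ((r + 1) * u), Nat.zero_le ((n + 1) * y)]
    exact Nat.le_of_mul_le_mul_left h1 (by omega)
  obtain ⟨μ, hμ⟩ := Nat.exists_eq_add_of_le hμ0
  have e4 : (n + r + 2) * μ + σ = (n + 1) * A1 + (r + 1) * u + (n + 1) * y := by
    zify at e3 hμ ⊢
    linear_combination (-1 : ℤ) * e3 - (n + r + 2 : ℤ) * hμ
  -- p0
  have hp0 : (n + 1) * y + u ≤ μ := by
    have h1 : (n + r + 2) * ((n + 1) * y + u) ≤ (n + r + 2) * μ := by
      have h2 : (n + 1) * ((n + r + 1) * y + u + 2) ≤ (n + 1) * A1 := by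
        refine Nat.mul_le_mul_left _ ?_
        have h3 : (n + r + 1) * y ≤ (2 * n + 1) * (2 * n) := Nat.mul_le_mul (by omega) hyn
        nlinarith
      nlinarith
    exact Nat.le_of_mul_le_mul_left h1 (by omega)
  obtain ⟨w, hw⟩ := Nat.exists_eq_add_of_le hp0
  set p0 := w / (n + 1) with hp0d
  set e0 := w % (n + 1) with he0d
  have hw2 : w = (n + 1) * p0 + e0 := (Nat.div_add_mod w (n + 1)).symm
  have he0 : e0 ≤ n := Nat.lt_succ_iff.1 (Nat.mod_lt w (by omega))
  have hμ2 : μ = (n + 1) * y + u + (n + 1) * p0 + e0 := by omega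
  -- K
  have hK0 : p0 ≤ m := by
    have h1 : (n + 1) * p0 ≤ (n + 1) * m := by
      have h2 : (n + 1) * m + (r + 1) * u + (n + 1) * y = (r + 1) * μ + σ := by
        zify at e3 hμ ⊢
        linear_combination e3 + (r + 1 : ℤ) * hμ
      have h3 : r * u ≤ r * μ := Nat.mul_le_mul_left _ (by
        have := Nat.zero_le ((n + 1) * y)
        omega)
      nlinarith
    exact Nat.le_of_mul_le_mul_left h1 (by omega)
  obtain ⟨K, hK⟩ := Nat.exists_eq_add_of_le hK0
  set q := K / r with hq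
  set rem := K % r with hrem
  have hK2 : K = r * q + rem := (Nat.div_add_mod K r).symm
  have hremlt : rem < r := Nat.mod_lt K (by omega)
  obtain ⟨c1, c2, c3, c4⟩ := core n r u y m μ p0 e0 q rem σ A2 A1 A0 B B1 h (by omega) hr hrn
    hBuy r2 r1 hσ hσ2 hm hμ hμ2 he0 (by rw [hK, hK2]) hremlt hu3 hB1'
  -- the numbers
  have hsum : ∑ j, (Fin.cons p0 (fun i : Fin r => q + if i.val < rem then 1 else 0) :
      Fin (r + 1) → ℕ) j = m := by
    rw [Fin.sum_univ_succ]
    simp only [Fin.cons_zero, Fin.cons_succ]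
    rw [sum_bal r q rem hremlt.le, hK, hK2]
  have hval : ∀ j, (Fin.cons p0 (fun i : Fin r => q + if i.val < rem then 1 else 0) :
      Fin (r + 1) → ℕ) j = p0 ∨ (Fin.cons p0 (fun i : Fin r => q + if i.val < rem then 1 else 0) :
      Fin (r + 1) → ℕ) j = q ∨ (Fin.cons p0 (fun i : Fin r => q + if i.val < rem then 1 else 0) :
      Fin (r + 1) → ℕ) j = q + 1 := by
    intro j
    refine Fin.cases ?_ (fun i => ?_) j
    · left
      rfl
    · right
      simp only [Fin.cons_succ]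
      split_ifs
      · right
        rfl
      · left
        rfl
  refine ⟨u, y, Fin.cons p0 (fun i : Fin r => q + if i.val < rem then 1 else 0), hBuy, hyle,
    ?_, ?_, ?_, ?_, ?_⟩
  · rw [hsum]
    exact hm.symm
  · intro j
    rw [hsum]
    exact c1 _ (hval j)
  · rw [hsum]
    exact c2
  · intro j
    rw [hsum]
    have := c3 _ (hval j)
    omega
  · intro j
    exact c4 _ (c3 _ (hval j))

end Pool.Agent.WarS
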