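import Pool.Agent.WarS.Stmts
import Pool.Agent.War.C1

/-!
# Simultaneous Waring decompositions (MP_db021c_ag), few forms: residual lemma   (helper76)

Section (RES) of `Pool/Agent/WarS/PAPER.md`.
-/

set_option autoImplicit false

open Module MvPolynomial
open Pool.Agent.War

namespace Pool.Agent.WarS

namespace RESm

/-- the parameters -/
abbrev Pm (n r u v y : ℕ) (I : Type) : Type :=
  (I → Fin (n + 1) → ℂ) × (Fin u → Fin n → ℂ) × (Fin v → Fin n → ℂ) ×
    (Fin v → Fin (r + 1) → ℂ) × (Fin y → Fin n → ℂ)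

section Maps

variable {n r u v y : ℕ} {I : Type}

/-- a point off the hyperplane -/
def Lw (i : I) : Pm n r u v y I →ₗ[ℂ] (Fin (n + 1) → ℂ) where
  toFun x := x.1 i
  map_add' _ _ := rfl
  map_smul' _ _ := rfl

/-- a point z1 -/
def L1 (i : Fin u) : Pm n r u v y I →ₗ[ℂ] (Fin n → ℂ) where
  toFun x := x.2.1 i
  map_add' _ _ := rfl
  map_smul' _ _ := rfl

/-- a point z2 -/
def L2 (i : Fin v) : Pm n r u v y I →ₗ[ℂ] (Fin n → ℂ) where
  toFun x := x.2.2.1 i
  map_add' _ _ := rfl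
  map_smul' _ _ := rfl

/-- a coordinate of a vector a -/
def La (i : Fin v) (j : Fin (r + 1)) : Pm n r u v y I →ₗ[ℂ] ℂ where
  toFun x := x.2.2.2.1 i j
  map_add' _ _ := rfl
  map_smul' _ _ := rfl

/-- a point z0 -/
def L0 (i : Fin y) : Pm n r u v y I →ₗ[ℂ] (Fin n → ℂ) where
  toFun x := x.2.2.2.2 i
  map_add' _ _ := rfl
  map_smul' _ _ := rfl

end Maps

section Fun

variable {X : Type*} [AddCommGroup X] [Module ℂ X] {m e : ℕ} {γ : Type}

/-- evaluation of the form j -/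
noncomputable def Ev (m e : ℕ) {γ : Type} (j : γ) (z : Fin m → ℂ) : (γ → Pol m e) →ₗ[ℂ] ℂ :=
  (ev m e z).comp (LinearMap.proj j)

/-- evaluation of a derivative of the form j -/
noncomputable def Dv (m e : ℕ) {γ : Type} (j : γ) (k : Fin m) (z : Fin m → ℂ) :
    (γ → Pol m e) →ₗ[ℂ] ℂ :=
  (dv m e k z).comp (LinearMap.proj j)

theorem Ev_apply (j : γ) (z : Fin m → ℂ) (g : γ → Pol m e) :
    Ev m e j z g = eval z (g j : MvPolynomial (Fin m) ℂ) := ev_apply _ _

theorem Dv_apply (j : γ) (k : Fin m) (z : Fin m → ℂ) (g : γ → Pol m e) :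
    Dv m e j k z g = eval z (pderiv k (g j : MvPolynomial (Fin m) ℂ)) := dv_apply _ _ _

theorem PK_Ev (j : γ) (L : X →ₗ[ℂ] (Fin m → ℂ)) :
    PK fun x : X => LinearMap.ker (Ev m e j (L x)) := by
  refine PK.one (φ := fun x : X => Ev m e j (L x)) fun g => ?_
  simp only [Ev_apply]
  exact (LP_eval _).comp_linear L

theorem PK_Dv (j : γ) (k : Fin m) (L : X →ₗ[ℂ] (Fin m → ℂ)) :
    PK fun x : X => LinearMap.ker (Dv m e j k (L x)) := by
  refine PK.one (φ := fun x : X => Dv m e j k (L x)) fun g => ?_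
  simp only [Dv_apply]
  exact (LP_eval _).comp_linear L

end Fun

section ZZ

variable {n r u v y : ℕ} {I : Type}

/-- the space of solutions of the residual conditions -/
noncomputable def ZZ (d : ℕ) (π : I → Fin (r + 1)) (x : Pm n r u v y I) :
    Submodule ℂ (Fin (r + 1) → Pol (n + 1) (d + 1)) :=
  (((⨅ q : I × Fin (r + 1), LinearMap.ker (Ev (n + 1) (d + 1) q.2 (Lw q.1 x))) ⊓
    (⨅ q : I × Fin (n + 1), LinearMap.ker (Dv (n + 1) (d + 1) (π q.1) q.2 (Lw q.1 x)))) ⊓
  ((⨅ i : Fin u, LinearMap.ker (Ev (n + 1) (d + 1) (0 : Fin (r + 1)) (hpL n (L1 i x)))) ⊓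
    (⨅ i : Fin v, LinearMap.ker (OmC1 n (d + 1) (L2 i x, fun j : Fin (r + 1) => La i j x))))) ⊓
  ((⨅ i : Fin y, LinearMap.ker (Ev (n + 1) (d + 1) (0 : Fin (r + 1)) (hpL n (L0 i x)))) ⊓
    (⨅ q : Fin y × Fin n,
      LinearMap.ker (Dv (n + 1) (d + 1) (0 : Fin (r + 1)) q.2.succ (hpL n (L0 q.1 x)))))

theorem mem_ZZ {d : ℕ} {π : I → Fin (r + 1)} {x : Pm n r u v y I}
    {g : Fin (r + 1) → Pol (n + 1) (d + 1)} : g ∈ ZZ d π x ↔
      ResC π x.1 x.2.1 x.2.2.1 x.2.2.2.1 x.2.2.2.2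
        (fun j => (g j : MvPolynomial (Fin (n + 1)) ℂ)) := by
  simp only [ZZ, Submodule.mem_inf, Submodule.mem_iInf, LinearMap.mem_ker, Ev_apply, Dv_apply,
    OmC1_apply]
  constructor
  · rintro ⟨⟨⟨h1, h2⟩, h3, h4⟩, h5, h6⟩
    exact ⟨fun i j => h1 (i, j), fun i k => h2 (i, k), h3, h4, h5, fun i k => h6 (i, k)⟩
  · rintro ⟨h1, h2, h3, h4, h5, h6⟩
    exact ⟨⟨⟨fun q => h1 q.1 q.2, fun q => h2 q.1 q.2⟩, h3, h4⟩, h5, fun q => h6 q.1 q.2⟩

theorem PK_ZZ [Finite I] (d : ℕ) (π : I → Fin (r + 1)) :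
    PK (K := ℂ) fun x : Pm n r u v y I => ZZ d π x := by
  refine PK.inf (PK.inf (PK.inf ?_ ?_) (PK.inf ?_ ?_)) (PK.inf ?_ ?_)
  · exact PK.iInf fun q => PK_Ev q.2 (Lw q.1)
  · exact PK.iInf fun q => PK_Dv (π q.1) q.2 (Lw q.1)
  · exact PK.iInf fun i => PK_Ev 0 ((hpL n).comp (L1 i))
  · refine PK.iInf fun i => PK.one (φ := fun x : Pm n r u v y I =>
      OmC1 n (d + 1) (L2 i x, fun j : Fin (r + 1) => La i j x)) fun g => ?_
    simp only [OmC1_apply, eval_hp]
    exact LP.sum _ fun j _ => (LP.linear (La i j)).mul ((LP_eval _).comp_linear (L2 i))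
  · exact PK.iInf fun i => PK_Ev 0 ((hpL n).comp (L0 i))
  · exact PK.iInf fun q => PK_Dv 0 q.2.succ ((hpL n).comp (L0 q.1))

end ZZ

theorem sum_fib {I : Type} [Fintype I] {s : ℕ} (π : I → Fin s) :
    ∑ j, fib π j = Fintype.card I := by
  unfold fib
  rw [← Finset.card_univ (α := I)]
  exact (Finset.card_eq_sum_card_fiberwise (f := π) (s := Finset.univ) (t := Finset.univ)
    fun _ _ => Finset.mem_coe.2 (Finset.mem_univ _)).symm

/-- arithmetic of the dimensions -/
theorem count {n r u v y N I F f0 S : ℕ} (h0 : (n + 1) * f0 + I + (n + 1) * y + u ≤ N)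
    (hS : S + ((n + 1) * F + r * I) = r * N) (hI : f0 + F = I)
    (hT : (r + 1) * N ≤ (n + r + 2) * I + (n + 1) * y + u + v) :
    N - ((n + 1) * f0 + I + (n + 1) * y) - u + S ≤ v := by
  have e1 : (r + 1) * N = r * N + N := by ring
  have e2 : (n + r + 2) * I = (n + 1) * f0 + (n + 1) * F + r * I + I := by
    rw [← hI]
    ring
  rw [e1, e2] at hT
  omega

end RESm

open RESm in
/-- the residual lemma -/
theorem RES (hSG : S_SG) (hHD : S_HD) : S_RES := by
  intro n d r u v y I _ π hn hG0 hG1 hGy hB h0 hj hT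
  classical
  let P : Fin (r + 1) → Finset I := fun j => Finset.univ.filter fun i => π i = j
  have hP : ∀ j, (P j).card = fib π j := fun j => rfl
  -- the points w and z0
  have gA := hHD n d y I (P 0) hn (hG0 0) hGy (hB 0)
  have gB := (Gen.forall fun j : Fin (r + 1) =>
    hSG (n + 1) (d + 1) I (P j) (by omega) (hG1 j)).comp
      (LinearMap.fst ℂ (I → Fin (n + 1) → ℂ) (Fin y → Fin n → ℂ)) Prod.fst_surjective
  have gC := (Gen.forall fun j : Fin (r + 1) =>
    hSG (n + 1) d I (P j) (by omega) (hG0 j)).comp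
      (LinearMap.fst ℂ (I → Fin (n + 1) → ℂ) (Fin y → Fin n → ℂ)) Prod.fst_surjective
  have gD := (gen_off (n := n) (I := I)).comp
      (LinearMap.fst ℂ (I → Fin (n + 1) → ℂ) (Fin y → Fin n → ℂ)) Prod.fst_surjective
  obtain ⟨⟨w, z0⟩, ⟨⟨hA, hB1⟩, hC⟩, hD⟩ := (((gA.and gB).and gC).and gD).exists
  simp only [LinearMap.fst_apply] at hA hB1 hC hD
  have hC' : ∀ j, Dbl (n + 1) d (P j) w = ⊥ := fun j =>
    Dbl_eq_botC1 (hC j) (by rw [hP]; have := hB j; omega)
  have hker : ∀ (j : Fin (r + 1)) (f : Pol (n + 1) (d + 1)), f ∈ Dbl (n + 1) (d + 1) (P j) w →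
      (∀ p : Fin n → ℂ, eval p (res n (f : MvPolynomial (Fin (n + 1)) ℂ)) = 0) → f = 0 := by
    intro j f hf hp
    have e2 : res n (f : MvPolynomial (Fin (n + 1)) ℂ) = 0 :=
      MvPolynomial.funext fun p => by rw [hp, map_zero]
    obtain ⟨g, hg⟩ := exists_mulXC1 e2
    have e3 : g ∈ Dbl (n + 1) d (P j) w := Dbl_of_mulXC1 hD (by rw [← hg]; exact hf)
    rw [hC', Submodule.mem_bot] at e3
    rw [hg, e3, map_zero]
  -- the points z1
  obtain ⟨z1, hz1⟩ := red (fun z : Fin n → ℂ => ev (n + 1) (d + 1) (hp z))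
    (DblH n (d + 1) (P 0) w z0) ⊥ (by
      intro f hf hf0
      by_contra hcon
      push Not at hcon
      apply hf0
      rw [Submodule.mem_bot]
      refine hker 0 f hf.1 fun p => ?_
      have := hcon p
      rwa [ev_apply, eval_hp] at this) u
  rw [finrank_bot] at hz1
  set V0 := DblH n (d + 1) (P 0) w z0 ⊓ ⨅ i, LinearMap.ker (ev (n + 1) (d + 1) (hp (z1 i)))
    with hV0
  let V : Fin (r + 1) → Submodule ℂ (Pol (n + 1) (d + 1)) :=
    Fin.cons V0 fun j => Dbl (n + 1) (d + 1) (P j.succ) w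
  have hVD : ∀ j, V j ≤ Dbl (n + 1) (d + 1) (P j) w := by
    intro j
    refine Fin.cases ?_ (fun j => ?_) j
    · exact inf_le_left.trans inf_le_left
    · exact le_rfl
  let W : Submodule ℂ (Fin (r + 1) → Pol (n + 1) (d + 1)) := Submodule.pi Set.univ V
  have hW : finrank ℂ W ≤ v := by
    refine (finrank_pi_leC1 V).trans ?_
    rw [Fin.sum_univ_succ]
    have e1 : finrank ℂ (V 0) ≤ NN (n + 1) (d + 1) -
        ((n + 1) * fib π 0 + Fintype.card I + (n + 1) * y) - u := by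
      have : finrank ℂ (V 0) = finrank ℂ V0 := rfl
      rw [this]
      refine hz1.trans (max_le ?_ (Nat.zero_le _))
      exact Nat.sub_le_sub_right hA u
    have e2 : ∑ j : Fin r, finrank ℂ (V j.succ) ≤
        ∑ j : Fin r, (NN (n + 1) (d + 1) - ((n + 1) * fib π j.succ + Fintype.card I)) :=
      Finset.sum_le_sum fun j _ => hB1 j.succ
    refine (Nat.add_le_add e1 e2).trans ?_
    refine count (F := ∑ j : Fin r, fib π j.succ) h0 ?_ ?_ hT
    · have e3 : ∀ j : Fin r, NN (n + 1) (d + 1) - ((n + 1) * fib π j.succ + Fintype.card I) +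
          ((n + 1) * fib π j.succ + Fintype.card I) = NN (n + 1) (d + 1) := fun j =>
        Nat.sub_add_cancel (hj j.succ)
      have e4 := Finset.sum_congr (rfl : (Finset.univ : Finset (Fin r)) = Finset.univ)
        fun j _ => e3 j
      rw [Finset.sum_add_distrib, Finset.sum_add_distrib, ← Finset.mul_sum, Finset.sum_const,
        Finset.sum_const, Finset.card_univ, Fintype.card_fin, smul_eq_mul, smul_eq_mul] at e4
      exact e4
    · rw [← sum_fib π, Fin.sum_univ_succ]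
  -- the points (z2, a)
  obtain ⟨yy, hyy⟩ := red (OmC1 n (d + 1)) W ⊥ (by
    intro g hg hg0
    by_contra hcon
    push Not at hcon
    apply hg0
    rw [Submodule.mem_bot]
    funext j
    refine hker j (g j) (hVD j (hg j trivial)) fun p => ?_
    have := hcon (p, Pi.single j 1)
    rw [OmC1_apply] at this
    simpa [Pi.single_apply, eval_hp] using this) v
  rw [finrank_bot] at hyy
  have hyy' : W ⊓ ⨅ i, LinearMap.ker (OmC1 n (d + 1) (yy i)) = ⊥ :=
    Submodule.finrank_eq_zero.1 (by omega)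
  -- conclusion
  have hbot : ZZ d π ((w, z1, fun i => (yy i).1, fun i => (yy i).2, z0) :
      Pm n r u v y I) = ⊥ := by
    rw [eq_bot_iff, ← hyy']
    intro g hg
    have hg' := mem_ZZ.1 hg
    obtain ⟨k1, k2, k3, k4, k5, k6⟩ := hg'
    have kD : ∀ j, g j ∈ Dbl (n + 1) (d + 1) (P j) w := by
      intro j
      refine mem_Dbl.2 ⟨fun i => k1 i j, fun i hi k => ?_⟩
      have hij : π i = j := (Finset.mem_filter.1 hi).2
      have := k2 i k
      rwa [hij] at this
    refine ⟨fun j _ => ?_, ?_⟩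
    · refine Fin.cases ?_ (fun j => ?_) j
      · refine ⟨⟨kD 0, ?_⟩, ?_⟩
        · rw [SetLike.mem_coe, Submodule.mem_comap]
          refine mem_Dbl.2 ⟨fun i => ?_, fun i _ k => ?_⟩
          · have := k5 i
            rwa [eval_hp] at this
          · have := k6 i k
            rwa [eval_hp_pderiv] at this
        · rw [SetLike.mem_coe, Submodule.mem_iInf]
          intro i
          rw [LinearMap.mem_ker, ev_apply]
          exact k3 i
      · exact kD j.succ
    · rw [SetLike.mem_coe, Submodule.mem_iInf]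
      intro i
      rw [LinearMap.mem_ker, OmC1_apply]
      exact k4 i
  refine ((PK_ZZ d π).gen_bot hbot).mono fun x hx => ?_
  intro g hg hres j
  have h1 : (fun j => (⟨g j, mem_Pol.2 (hg j)⟩ : Pol (n + 1) (d + 1))) ∈ ZZ d π x :=
    mem_ZZ.2 hres
  rw [hx, Submodule.mem_bot] at h1
  exact congrArg Subtype.val (congrFun h1 j)

end Pool.Agent.WarS
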