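import Pool.Agent.WarS.Stmts

/-!
# Simultaneous Waring decompositions (MP_db021c_ag), few forms: differential Horace   (helper86)

For `t ≠ 0` write `f = t ρ + x₀ g`; the conditions on `(ρ, g)` are polynomial in `t` and have only
the zero solution at `t = 0`.
-/

set_option autoImplicit false

open Module MvPolynomial
open Pool.Agent.War

namespace Pool.Agent.WarS

namespace DHaux

/-- the unknowns -/
abbrev VV (n d r : ℕ) : Type :=
  (Fin (r + 1) → Pol n (d + 2)) × (Fin (r + 1) → Pol (n + 1) (d + 1))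

/-- the component without `x₀` -/
noncomputable def rho {n d r : ℕ} (j : Fin (r + 1)) : VV n d r →ₗ[ℂ] MvPolynomial (Fin n) ℂ :=
  (Pol n (d + 2)).subtype ∘ₗ LinearMap.proj j ∘ₗ LinearMap.fst ℂ _ _

/-- the component divisible by `x₀` -/
noncomputable def gg {n d r : ℕ} (j : Fin (r + 1)) :
    VV n d r →ₗ[ℂ] MvPolynomial (Fin (n + 1)) ℂ :=
  (Pol (n + 1) (d + 1)).subtype ∘ₗ LinearMap.proj j ∘ₗ LinearMap.snd ℂ _ _

/-- evaluation as a linear map -/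
noncomputable def el {m : ℕ} (z : Fin m → ℂ) : MvPolynomial (Fin m) ℂ →ₗ[ℂ] ℂ :=
  (MvPolynomial.aeval z : MvPolynomial (Fin m) ℂ →ₐ[ℂ] ℂ).toLinearMap

/-- partial derivative as a linear map -/
noncomputable def pd {m : ℕ} (k : Fin m) : MvPolynomial (Fin m) ℂ →ₗ[ℂ] MvPolynomial (Fin m) ℂ :=
  (pderiv k).toLinearMap

/-- the polynomial `f j = t ρ j + x₀ g j` -/
noncomputable def ff {n d r : ℕ} (t : ℂ) (j : Fin (r + 1)) :
    VV n d r →ₗ[ℂ] MvPolynomial (Fin (n + 1)) ℂ :=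
  t • ((rename Fin.succ : MvPolynomial (Fin n) ℂ →ₐ[ℂ] MvPolynomial (Fin (n + 1)) ℂ).toLinearMap ∘ₗ
    rho j) + LinearMap.mulLeft ℂ (X 0 : MvPolynomial (Fin (n + 1)) ℂ) ∘ₗ gg j

@[simp] theorem rho_apply {n d r : ℕ} (j : Fin (r + 1)) (v : VV n d r) :
    rho j v = (v.1 j : MvPolynomial (Fin n) ℂ) := rfl

@[simp] theorem gg_apply {n d r : ℕ} (j : Fin (r + 1)) (v : VV n d r) :
    gg j v = (v.2 j : MvPolynomial (Fin (n + 1)) ℂ) := rfl

@[simp] theorem el_apply {m : ℕ} (z : Fin m → ℂ) (f : MvPolynomial (Fin m) ℂ) :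
    el z f = eval z f := by
  simp [el, MvPolynomial.aeval_eq_eval]

@[simp] theorem pd_apply {m : ℕ} (k : Fin m) (f : MvPolynomial (Fin m) ℂ) :
    pd k f = pderiv k f := rfl

@[simp] theorem ff_apply {n d r : ℕ} (t : ℂ) (j : Fin (r + 1)) (v : VV n d r) :
    ff t j v = t • rename Fin.succ (v.1 j : MvPolynomial (Fin n) ℂ) +
      X 0 * (v.2 j : MvPolynomial (Fin (n + 1)) ℂ) := rfl

theorem res_rename {n : ℕ} (p : MvPolynomial (Fin n) ℂ) : res n (rename Fin.succ p) = p := by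
  unfold res
  rw [aeval_rename]
  have : ((Fin.cons 0 X : Fin (n + 1) → MvPolynomial (Fin n) ℂ) ∘ Fin.succ) = X := by
    funext i
    simp
  rw [this]
  simp

theorem pderiv_zero_rename {n : ℕ} (p : MvPolynomial (Fin n) ℂ) :
    pderiv 0 (rename Fin.succ p : MvPolynomial (Fin (n + 1)) ℂ) = 0 := by
  induction p using MvPolynomial.induction_on with
  | C a => simp
  | add p q hp hq => simp [hp, hq]
  | mul_X p k hp => simp [Derivation.leibniz, hp, pderiv_X_of_ne (Fin.succ_ne_zero k)]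

theorem LP_id : LP (K := ℂ) (X := ℂ) fun t => t := by
  have h := LP.linear (K := ℂ) (X := ℂ) (LinearMap.id : ℂ →ₗ[ℂ] ℂ)
  exact h

theorem LP_neg : LP (K := ℂ) (X := ℂ) fun t => -t := by
  have h := LP.linear (K := ℂ) (X := ℂ) (-LinearMap.id : ℂ →ₗ[ℂ] ℂ)
  exact h

theorem LP_cons {n : ℕ} (z : Fin n → ℂ) (f : MvPolynomial (Fin (n + 1)) ℂ) :
    LP (K := ℂ) (X := ℂ) fun t => eval (Fin.cons t z : Fin (n + 1) → ℂ) f := by
  have h := LP.eval (K := ℂ) (X := ℂ) f (Z := fun k t => (Fin.cons t z : Fin (n + 1) → ℂ) k) (by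
    intro k
    refine Fin.cases ?_ (fun j => ?_) k
    · exact LP_id
    · simp only [Fin.cons_succ]
      exact LP.const _)
  exact h

theorem eval_rename_succ {n : ℕ} (x : Fin (n + 1) → ℂ) (p : MvPolynomial (Fin n) ℂ) :
    eval x (rename Fin.succ p) = eval (fun k => x k.succ) p := by
  rw [eval_rename]
  rfl

theorem eval_cons_rename {n : ℕ} (t : ℂ) (z : Fin n → ℂ) (p : MvPolynomial (Fin n) ℂ) :
    eval (Fin.cons t z : Fin (n + 1) → ℂ) (rename Fin.succ p) = eval z p := by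
  rw [eval_rename_succ]
  simp

theorem eval_hp_rename {n : ℕ} (z : Fin n → ℂ) (p : MvPolynomial (Fin n) ℂ) :
    eval (hp z) (rename Fin.succ p) = eval z p := eval_cons_rename 0 z p

theorem pderiv_succ_rename {n : ℕ} (k : Fin n) (p : MvPolynomial (Fin n) ℂ) :
    pderiv k.succ (rename Fin.succ p : MvPolynomial (Fin (n + 1)) ℂ) =
      rename Fin.succ (pderiv k p) :=
  pderiv_rename (Fin.succ_injective n) k p

theorem pderiv_zero_X_mul {n : ℕ} (g : MvPolynomial (Fin (n + 1)) ℂ) :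
    pderiv 0 (X 0 * g) = X 0 * pderiv 0 g + g := by
  rw [Derivation.leibniz]
  simp

theorem pderiv_succ_X_mul {n : ℕ} (k : Fin n) (g : MvPolynomial (Fin (n + 1)) ℂ) :
    pderiv k.succ (X 0 * g) = X 0 * pderiv k.succ g := by
  rw [Derivation.leibniz]
  simp [pderiv_X_of_ne (Fin.succ_ne_zero k).symm]

section

variable {n d r u v y : ℕ} {I : Type}

/-- the conditions on `(ρ, g)` -/
structure Cnd (d : ℕ) (π : I → Fin (r + 1)) (w : I → Fin (n + 1) → ℂ)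
    (z1 : Fin u → Fin n → ℂ) (z2 : Fin v → Fin n → ℂ) (a : Fin v → Fin (r + 1) → ℂ)
    (z0 : Fin y → Fin n → ℂ) (t : ℂ) (x : VV n d r) : Prop where
  a1 : ∀ i j, eval (z1 i) (x.1 j : MvPolynomial (Fin n) ℂ) = 0
  a2 : ∀ i k, eval (z1 i) (pderiv k (x.1 0 : MvPolynomial (Fin n) ℂ)) = 0
  a3 : ∀ i, eval (hp (z1 i)) (x.2 0 : MvPolynomial (Fin (n + 1)) ℂ) = 0
  b1 : ∀ i j, eval (z2 i) (x.1 j : MvPolynomial (Fin n) ℂ) = 0
  b2 : ∀ i k, ∑ j, a i j * eval (z2 i) (pderiv k (x.1 j : MvPolynomial (Fin n) ℂ)) = 0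
  b3 : ∀ i, ∑ j, a i j * eval (hp (z2 i)) (x.2 j : MvPolynomial (Fin (n + 1)) ℂ) = 0
  c1 : ∀ i j, eval (w i) (ff t j x) = 0
  c2 : ∀ i k, eval (w i) (pderiv k (ff t (π i) x)) = 0
  e1 : ∀ i (j : Fin r), eval (z0 i) (x.1 j.succ : MvPolynomial (Fin n) ℂ) +
    eval (Fin.cons t (z0 i) : Fin (n + 1) → ℂ) (x.2 j.succ : MvPolynomial (Fin (n + 1)) ℂ) = 0
  e2 : ∀ i, eval (z0 i) (x.1 0 : MvPolynomial (Fin n) ℂ) - t *
    eval (Fin.cons t (z0 i) : Fin (n + 1) → ℂ)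
      (pderiv 0 (x.2 0 : MvPolynomial (Fin (n + 1)) ℂ)) = 0
  e3 : ∀ i, eval (Fin.cons t (z0 i) : Fin (n + 1) → ℂ) (x.2 0 : MvPolynomial (Fin (n + 1)) ℂ) +
    t * eval (Fin.cons t (z0 i) : Fin (n + 1) → ℂ)
      (pderiv 0 (x.2 0 : MvPolynomial (Fin (n + 1)) ℂ)) = 0
  e4 : ∀ i (k : Fin n), eval (z0 i) (pderiv k (x.1 0 : MvPolynomial (Fin n) ℂ)) +
    eval (Fin.cons t (z0 i) : Fin (n + 1) → ℂ)
      (pderiv k.succ (x.2 0 : MvPolynomial (Fin (n + 1)) ℂ)) = 0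

/-- the family of the solution spaces -/
theorem exists_PK [Finite I] (π : I → Fin (r + 1)) (w : I → Fin (n + 1) → ℂ)
    (z1 : Fin u → Fin n → ℂ) (z2 : Fin v → Fin n → ℂ) (a : Fin v → Fin (r + 1) → ℂ)
    (z0 : Fin y → Fin n → ℂ) :
    ∃ Z : ℂ → Submodule ℂ (VV n d r), PK Z ∧
      ∀ t x, x ∈ Z t ↔ Cnd d π w z1 z2 a z0 t x := by
  have hconst : ∀ φ : VV n d r →ₗ[ℂ] ℂ, PK fun _ : ℂ => LinearMap.ker φ := fun φ =>
    PK.one (φ := fun _ : ℂ => φ) fun x => LP.const _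
  have A1 : PK fun _ : ℂ => ⨅ q : Fin u × Fin (r + 1),
      LinearMap.ker (el (z1 q.1) ∘ₗ (rho q.2 : VV n d r →ₗ[ℂ] _)) :=
    PK.iInf fun q => hconst _
  have A2 : PK fun _ : ℂ => ⨅ q : Fin u × Fin n,
      LinearMap.ker (el (z1 q.1) ∘ₗ pd q.2 ∘ₗ (rho 0 : VV n d r →ₗ[ℂ] _)) :=
    PK.iInf fun q => hconst _
  have A3 : PK fun _ : ℂ => ⨅ q : Fin u,
      LinearMap.ker (el (hp (z1 q)) ∘ₗ (gg 0 : VV n d r →ₗ[ℂ] _)) :=
    PK.iInf fun q => hconst _
  have B1 : PK fun _ : ℂ => ⨅ q : Fin v × Fin (r + 1),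
      LinearMap.ker (el (z2 q.1) ∘ₗ (rho q.2 : VV n d r →ₗ[ℂ] _)) :=
    PK.iInf fun q => hconst _
  have B2 : PK fun _ : ℂ => ⨅ q : Fin v × Fin n,
      LinearMap.ker (∑ j, a q.1 j • (el (z2 q.1) ∘ₗ pd q.2 ∘ₗ (rho j : VV n d r →ₗ[ℂ] _))) :=
    PK.iInf fun q => hconst _
  have B3 : PK fun _ : ℂ => ⨅ q : Fin v,
      LinearMap.ker (∑ j, a q j • (el (hp (z2 q)) ∘ₗ (gg j : VV n d r →ₗ[ℂ] _))) :=
    PK.iInf fun q => hconst _
  have C1 : PK fun t : ℂ => ⨅ q : I × Fin (r + 1),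
      LinearMap.ker (el (w q.1) ∘ₗ (ff t q.2 : VV n d r →ₗ[ℂ] _)) := by
    refine PK.iInf fun q => PK.one
      (φ := fun t : ℂ => el (w q.1) ∘ₗ (ff t q.2 : VV n d r →ₗ[ℂ] _)) fun x => ?_
    simp only [LinearMap.comp_apply, el_apply, ff_apply, map_add, smul_eval]
    exact (LP_id.mul (LP.const _)).add (LP.const _)
  have C2 : PK fun t : ℂ => ⨅ q : I × Fin (n + 1),
      LinearMap.ker (el (w q.1) ∘ₗ pd q.2 ∘ₗ (ff t (π q.1) : VV n d r →ₗ[ℂ] _)) := by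
    refine PK.iInf fun q => PK.one
      (φ := fun t : ℂ => el (w q.1) ∘ₗ pd q.2 ∘ₗ (ff t (π q.1) : VV n d r →ₗ[ℂ] _)) fun x => ?_
    simp only [LinearMap.comp_apply, el_apply, pd_apply, ff_apply, map_add, Derivation.map_smul,
      smul_eval]
    exact (LP_id.mul (LP.const _)).add (LP.const _)
  have E1 : PK fun t : ℂ => ⨅ q : Fin y × Fin r,
      LinearMap.ker (el (z0 q.1) ∘ₗ (rho q.2.succ : VV n d r →ₗ[ℂ] _) +
        el (Fin.cons t (z0 q.1) : Fin (n + 1) → ℂ) ∘ₗ (gg q.2.succ : VV n d r →ₗ[ℂ] _)) := by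
    refine PK.iInf fun q => PK.one
      (φ := fun t : ℂ => el (z0 q.1) ∘ₗ (rho q.2.succ : VV n d r →ₗ[ℂ] _) +
        el (Fin.cons t (z0 q.1) : Fin (n + 1) → ℂ) ∘ₗ (gg q.2.succ : VV n d r →ₗ[ℂ] _))
        fun x => ?_
    simp only [LinearMap.add_apply, LinearMap.comp_apply, el_apply, rho_apply, gg_apply]
    exact (LP.const _).add (LP_cons _ _)
  have E2 : PK fun t : ℂ => ⨅ q : Fin y,
      LinearMap.ker (el (z0 q) ∘ₗ (rho 0 : VV n d r →ₗ[ℂ] _) + (-t) •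
        (el (Fin.cons t (z0 q) : Fin (n + 1) → ℂ) ∘ₗ pd 0 ∘ₗ (gg 0 : VV n d r →ₗ[ℂ] _))) := by
    refine PK.iInf fun q => PK.one
      (φ := fun t : ℂ => el (z0 q) ∘ₗ (rho 0 : VV n d r →ₗ[ℂ] _) + (-t) •
        (el (Fin.cons t (z0 q) : Fin (n + 1) → ℂ) ∘ₗ pd 0 ∘ₗ (gg 0 : VV n d r →ₗ[ℂ] _)))
        fun x => ?_
    simp only [LinearMap.add_apply, LinearMap.smul_apply, LinearMap.comp_apply, el_apply,
      rho_apply, gg_apply, pd_apply, smul_eq_mul]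
    exact (LP.const _).add (LP_neg.mul (LP_cons _ _))
  have E3 : PK fun t : ℂ => ⨅ q : Fin y,
      LinearMap.ker (el (Fin.cons t (z0 q) : Fin (n + 1) → ℂ) ∘ₗ (gg 0 : VV n d r →ₗ[ℂ] _) + t •
        (el (Fin.cons t (z0 q) : Fin (n + 1) → ℂ) ∘ₗ pd 0 ∘ₗ (gg 0 : VV n d r →ₗ[ℂ] _))) := by
    refine PK.iInf fun q => PK.one
      (φ := fun t : ℂ => el (Fin.cons t (z0 q) : Fin (n + 1) → ℂ) ∘ₗ
        (gg 0 : VV n d r →ₗ[ℂ] _) + t •
        (el (Fin.cons t (z0 q) : Fin (n + 1) → ℂ) ∘ₗ pd 0 ∘ₗ (gg 0 : VV n d r →ₗ[ℂ] _)))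
        fun x => ?_
    simp only [LinearMap.add_apply, LinearMap.smul_apply, LinearMap.comp_apply, el_apply,
      gg_apply, pd_apply, smul_eq_mul]
    exact (LP_cons _ _).add (LP_id.mul (LP_cons _ _))
  have E4 : PK fun t : ℂ => ⨅ q : Fin y × Fin n,
      LinearMap.ker (el (z0 q.1) ∘ₗ pd q.2 ∘ₗ (rho 0 : VV n d r →ₗ[ℂ] _) +
        el (Fin.cons t (z0 q.1) : Fin (n + 1) → ℂ) ∘ₗ pd q.2.succ ∘ₗ
          (gg 0 : VV n d r →ₗ[ℂ] _)) := by
    refine PK.iInf fun q => PK.one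
      (φ := fun t : ℂ => el (z0 q.1) ∘ₗ pd q.2 ∘ₗ (rho 0 : VV n d r →ₗ[ℂ] _) +
        el (Fin.cons t (z0 q.1) : Fin (n + 1) → ℂ) ∘ₗ pd q.2.succ ∘ₗ
          (gg 0 : VV n d r →ₗ[ℂ] _)) fun x => ?_
    simp only [LinearMap.add_apply, LinearMap.comp_apply, el_apply, rho_apply, gg_apply, pd_apply]
    exact (LP.const _).add (LP_cons _ _)
  refine ⟨_, (((A1.inf A2).inf A3).inf ((B1.inf B2).inf B3)).inf
    ((C1.inf C2).inf ((E1.inf E2).inf (E3.inf E4))), fun t x => ?_⟩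
  simp only [Submodule.mem_inf, Submodule.mem_iInf, LinearMap.mem_ker, Prod.forall,
    LinearMap.comp_apply, LinearMap.add_apply, LinearMap.smul_apply, LinearMap.sum_apply,
    el_apply, pd_apply, rho_apply, gg_apply, smul_eq_mul, neg_mul, ← sub_eq_add_neg]
  constructor
  · rintro ⟨⟨⟨⟨h1, h2⟩, h3⟩, ⟨h4, h5⟩, h6⟩, ⟨h7, h8⟩, ⟨h9, h10⟩, h11, h12⟩
    exact ⟨h1, h2, h3, h4, h5, h6, h7, h8, h9, h10, h11, h12⟩
  · rintro ⟨h1, h2, h3, h4, h5, h6, h7, h8, h9, h10, h11, h12⟩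
    exact ⟨⟨⟨⟨h1, h2⟩, h3⟩, ⟨h4, h5⟩, h6⟩, ⟨h7, h8⟩, ⟨h9, h10⟩, h11, h12⟩

/-- no solutions at `t = 0` -/
theorem zero_of_cnd {π : I → Fin (r + 1)} {w : I → Fin (n + 1) → ℂ}
    {z1 : Fin u → Fin n → ℂ} {z2 : Fin v → Fin n → ℂ} {a : Fin v → Fin (r + 1) → ℂ}
    {z0 : Fin y → Fin n → ℂ} (hw : ∀ i, w i 0 ≠ 0) (hS : TraS d z1 z2 z0)
    (hV : TraV d z1 z2 a z0) (hR : ResZ d π w z1 z2 a z0) {x : VV n d r}
    (h : Cnd d π w z1 z2 a z0 0 x) : x = 0 := by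
  have hρ0 : (x.1 0 : MvPolynomial (Fin n) ℂ) = 0 := by
    refine hS _ (mem_Pol.1 (x.1 0).2) (fun i => h.a1 i 0) h.a2 (fun i => h.b1 i 0) fun i => ?_
    have := h.e2 i
    rwa [zero_mul, sub_zero] at this
  have hoff : ∀ i j, eval (w i) (x.2 j : MvPolynomial (Fin (n + 1)) ℂ) = 0 := by
    intro i j
    have h1 := h.c1 i j
    rw [ff_apply, zero_smul, zero_add, map_mul, eval_X] at h1
    exact (mul_eq_zero.1 h1).resolve_left (hw i)
  have hg : ∀ j, (x.2 j : MvPolynomial (Fin (n + 1)) ℂ) = 0 := by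
    refine hR (fun j => (x.2 j : MvPolynomial (Fin (n + 1)) ℂ)) (fun j => mem_Pol.1 (x.2 j).2)
      ⟨hoff, fun i k => ?_, h.a3, h.b3, fun i => ?_, fun i k => ?_⟩
    · have h1 := h.c2 i k
      rw [ff_apply, zero_smul, zero_add] at h1
      revert h1
      refine Fin.cases (fun h1 => ?_) (fun k h1 => ?_) k
      · rw [pderiv_zero_X_mul, map_add, map_mul, eval_X, hoff, add_zero] at h1
        exact (mul_eq_zero.1 h1).resolve_left (hw i)
      · rw [pderiv_succ_X_mul, map_mul, eval_X] at h1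
        exact (mul_eq_zero.1 h1).resolve_left (hw i)
    · have h1 := h.e3 i
      rw [zero_mul, add_zero] at h1
      exact h1
    · have h1 := h.e4 i k
      rw [hρ0, map_zero, map_zero, zero_add] at h1
      exact h1
  have hρ : ∀ j, (x.1 j : MvPolynomial (Fin n) ℂ) = 0 := by
    refine hV (fun j => (x.1 j : MvPolynomial (Fin n) ℂ)) (fun j => mem_Pol.1 (x.1 j).2)
      h.a1 h.a2 h.b1 h.b2 fun i j => ?_
    revert i
    refine Fin.cases (fun i => ?_) (fun j i => ?_) j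
    · rw [hρ0, map_zero]
    · have h1 := h.e1 i j
      rw [hg, map_zero, add_zero] at h1
      exact h1
  refine Prod.ext (funext fun j => Subtype.ext (hρ j)) (funext fun j => Subtype.ext (hg j))

/-- decomposition of `f` -/
theorem exists_dec {t : ℂ} (ht : t ≠ 0) (f : Fin (r + 1) → MvPolynomial (Fin (n + 1)) ℂ)
    (hf : ∀ j, (f j).totalDegree ≤ d + 2) : ∃ x : VV n d r, ∀ j, f j = ff t j x := by
  have h : ∀ j, ∃ g : MvPolynomial (Fin (n + 1)) ℂ, g.totalDegree ≤ d + 1 ∧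
      f j - rename Fin.succ (res n (f j)) = X 0 * g := by
    intro j
    refine exists_of_res ?_ ?_
    · refine (totalDegree_sub _ _).trans (max_le (hf j) ?_)
      exact (totalDegree_rename_le _ _).trans ((res_totalDegree_le _).trans (hf j))
    · rw [map_sub, res_rename, sub_self]
  choose g hg1 hg2 using h
  refine ⟨(fun j => ⟨t⁻¹ • res n (f j), ?_⟩, fun j => ⟨g j, mem_Pol.2 (hg1 j)⟩), fun j => ?_⟩
  · exact (Pol n (d + 2)).smul_mem _ (mem_Pol.2 ((res_totalDegree_le _).trans (hf j)))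
  · rw [ff_apply, map_smul, smul_smul, mul_inv_cancel₀ ht, one_smul, ← hg2 j]
    ring

/-- the conditions on `f` give those on `(ρ, g)` -/
theorem cnd_of_kill {π : I → Fin (r + 1)} {w : I → Fin (n + 1) → ℂ}
    {z1 : Fin u → Fin n → ℂ} {z2 : Fin v → Fin n → ℂ} {a : Fin v → Fin (r + 1) → ℂ}
    {z0 : Fin y → Fin n → ℂ} {t : ℂ} (ht : t ≠ 0)
    (f : Fin (r + 1) → MvPolynomial (Fin (n + 1)) ℂ) {x : VV n d r} (hx : ∀ j, f j = ff t j x)
    (k1 : ∀ i j, eval (w i) (f j) = 0) (k2 : ∀ i k, eval (w i) (pderiv k (f (π i))) = 0)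
    (k3 : ∀ i j, eval (hp (z1 i)) (f j) = 0) (k4 : ∀ i k, eval (hp (z1 i)) (pderiv k (f 0)) = 0)
    (k5 : ∀ i j, eval (hp (z2 i)) (f j) = 0)
    (k6 : ∀ i k, ∑ j, a i j * eval (hp (z2 i)) (pderiv k (f j)) = 0)
    (k7 : ∀ i j, eval (Fin.cons t (z0 i) : Fin (n + 1) → ℂ) (f j) = 0)
    (k8 : ∀ i k, eval (Fin.cons t (z0 i) : Fin (n + 1) → ℂ) (pderiv k (f 0)) = 0) :
    Cnd d π w z1 z2 a z0 t x := by
  -- on the hyperplane
  have H0 : ∀ (z : Fin n → ℂ) j, eval (hp z) (f j) =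
      t * eval z (x.1 j : MvPolynomial (Fin n) ℂ) := by
    intro z j
    rw [hx, ff_apply, map_add, smul_eval, eval_hp_rename, map_mul, eval_X, hp_zero, zero_mul,
      add_zero]
  have H1 : ∀ (z : Fin n → ℂ) k j, eval (hp z) (pderiv (Fin.succ k) (f j)) =
      t * eval z (pderiv k (x.1 j : MvPolynomial (Fin n) ℂ)) := by
    intro z k j
    rw [hx, ff_apply, map_add, Derivation.map_smul, pderiv_succ_rename, pderiv_succ_X_mul, map_add,
      smul_eval, eval_hp_rename, map_mul, eval_X, hp_zero, zero_mul, add_zero]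
  have H2 : ∀ (z : Fin n → ℂ) j, eval (hp z) (pderiv 0 (f j)) =
      eval (hp z) (x.2 j : MvPolynomial (Fin (n + 1)) ℂ) := by
    intro z j
    rw [hx, ff_apply, map_add, Derivation.map_smul, pderiv_zero_rename, smul_zero, zero_add,
      pderiv_zero_X_mul, map_add, map_mul, eval_X, hp_zero, zero_mul, zero_add]
  -- at the moving points
  have M0 : ∀ (z : Fin n → ℂ) j, eval (Fin.cons t z : Fin (n + 1) → ℂ) (f j) =
      t * (eval z (x.1 j : MvPolynomial (Fin n) ℂ) +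
        eval (Fin.cons t z : Fin (n + 1) → ℂ) (x.2 j : MvPolynomial (Fin (n + 1)) ℂ)) := by
    intro z j
    rw [hx, ff_apply, map_add, smul_eval, eval_cons_rename, map_mul, eval_X, Fin.cons_zero]
    ring
  have M1 : ∀ (z : Fin n → ℂ) k j, eval (Fin.cons t z : Fin (n + 1) → ℂ)
      (pderiv (Fin.succ k) (f j)) =
      t * (eval z (pderiv k (x.1 j : MvPolynomial (Fin n) ℂ)) +
        eval (Fin.cons t z : Fin (n + 1) → ℂ)
          (pderiv k.succ (x.2 j : MvPolynomial (Fin (n + 1)) ℂ))) := by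
    intro z k j
    rw [hx, ff_apply, map_add, Derivation.map_smul, pderiv_succ_rename, pderiv_succ_X_mul, map_add,
      smul_eval, eval_cons_rename, map_mul, eval_X, Fin.cons_zero]
    ring
  have M2 : ∀ (z : Fin n → ℂ) j, eval (Fin.cons t z : Fin (n + 1) → ℂ) (pderiv 0 (f j)) =
      eval (Fin.cons t z : Fin (n + 1) → ℂ) (x.2 j : MvPolynomial (Fin (n + 1)) ℂ) +
        t * eval (Fin.cons t z : Fin (n + 1) → ℂ)
          (pderiv 0 (x.2 j : MvPolynomial (Fin (n + 1)) ℂ)) := by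
    intro z j
    rw [hx, ff_apply, map_add, Derivation.map_smul, pderiv_zero_rename, smul_zero, zero_add,
      pderiv_zero_X_mul, map_add, map_mul, eval_X, Fin.cons_zero]
    ring
  have N0 : ∀ i j, eval (z0 i) (x.1 j : MvPolynomial (Fin n) ℂ) +
      eval (Fin.cons t (z0 i) : Fin (n + 1) → ℂ) (x.2 j : MvPolynomial (Fin (n + 1)) ℂ) = 0 := by
    intro i j
    have := k7 i j
    rw [M0] at this
    exact (mul_eq_zero.1 this).resolve_left ht
  have N2 : ∀ i, eval (Fin.cons t (z0 i) : Fin (n + 1) → ℂ)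
      (x.2 0 : MvPolynomial (Fin (n + 1)) ℂ) + t * eval (Fin.cons t (z0 i) : Fin (n + 1) → ℂ)
          (pderiv 0 (x.2 0 : MvPolynomial (Fin (n + 1)) ℂ)) = 0 := by
    intro i
    rw [← M2]
    exact k8 i 0
  refine ⟨fun i j => ?_, fun i k => ?_, fun i => ?_, fun i j => ?_, fun i k => ?_, fun i => ?_,
    fun i j => ?_, fun i k => ?_, fun i j => N0 i j.succ, fun i => ?_, N2, fun i k => ?_⟩
  · have := k3 i j
    rw [H0] at this
    exact (mul_eq_zero.1 this).resolve_left ht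
  · have := k4 i k.succ
    rw [H1] at this
    exact (mul_eq_zero.1 this).resolve_left ht
  · rw [← H2]
    exact k4 i 0
  · have := k5 i j
    rw [H0] at this
    exact (mul_eq_zero.1 this).resolve_left ht
  · have := k6 i k.succ
    simp only [H1] at this
    have e : ∑ j, a i j * (t * eval (z2 i) (pderiv k (x.1 j : MvPolynomial (Fin n) ℂ))) =
        t * ∑ j, a i j * eval (z2 i) (pderiv k (x.1 j : MvPolynomial (Fin n) ℂ)) := by
      rw [Finset.mul_sum]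
      exact Finset.sum_congr rfl fun j _ => by ring
    rw [e] at this
    exact (mul_eq_zero.1 this).resolve_left ht
  · have := k6 i 0
    simp only [H2] at this
    exact this
  · rw [← hx]
    exact k1 i j
  · rw [← hx]
    exact k2 i k
  · have h1 := N0 i 0
    have h2 := N2 i
    linear_combination h1 - h2
  · have := k8 i k.succ
    rw [M1] at this
    exact (mul_eq_zero.1 this).resolve_left ht

end

end DHaux

open DHaux in
/-- differential Horace -/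
theorem DH : S_DH := by
  intro n d r u v y I _ π w z1 z2 a z0 hw hS hV hR
  obtain ⟨Z, hZ, hmem⟩ := exists_PK (n := n) (d := d) (r := r) π w z1 z2 a z0
  have h0 : Z 0 = ⊥ := by
    rw [Submodule.eq_bot_iff]
    intro x hx
    exact zero_of_cnd hw hS hV hR ((hmem 0 x).1 hx)
  obtain ⟨t, ht1, ht2⟩ := ((hZ.gen_bot h0).and
    (Gen.ne (K := ℂ) (X := ℂ) LP_id 1 one_ne_zero)).exists
  refine ⟨t, fun f hf k1 k2 k3 k4 k5 k6 k7 k8 => ?_⟩
  obtain ⟨x, hx⟩ := exists_dec ht2 f hf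
  have h1 := (hmem t x).2 (cnd_of_kill ht2 f hx k1 k2 k3 k4 k5 k6 k7 k8)
  rw [ht1, Submodule.mem_bot] at h1
  intro j
  rw [hx, h1, map_zero]

end Pool.Agent.WarS
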