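import Pool.Agent.WarS.Stmts
import Pool.Agent.War.AR

/-!
# Simultaneous Waring decompositions (MP_db021c_ag), few forms: module GD   (helper22)
-/

set_option autoImplicit false

open Pool.Agent.War

namespace Pool.Agent.WarS

namespace GDAux

theorem mono2 (d : ℕ) : ∀ m : ℕ, 2 ≤ m → NN 2 d ≤ NN m d := by
  intro m hm
  induction m, hm using Nat.le_induction with
  | base => exact le_rfl
  | succ m _ ih => exact ih.trans (AR_mono m d)

theorem two_mul_two (d : ℕ) : 2 * NN 2 d = (d + 2) * (d + 1) := by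
  have h1 := AR_rec 1 d
  rw [NN_one] at h1
  rw [show 2 * NN 2 d = (1 + 1) * NN (1 + 1) d from rfl, h1]
  ring

end GDAux

open GDAux in
theorem GD (h : S_SW) : S_GD := by
  intro m d p hm hd hp
  rcases Nat.lt_or_ge m 2 with h2 | h2
  · obtain rfl : m = 1 := by omega
    refine GG_one d p ?_
    rw [NN_one] at hp
    omega
  · refine h m d p h2 ?_
    have hm2 : m + 1 ≤ m ^ 2 := by nlinarith
    have hdm : 2 * m - 2 ≤ d := by
      have h8 : 4 * m ^ 2 * 1 ≤ 4 * m ^ 2 * (m + 2) := Nat.mul_le_mul_left _ (by omega)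
      omega
    obtain ⟨e, he⟩ : ∃ e, d + 2 = e + 2 * m := ⟨d - (2 * m - 2), by omega⟩
    have he' : d - (2 * m - 2) = e := by omega
    rw [he']
    have h1 := AR_ratio (2 * m) e m
    rw [← he] at h1
    have h3 := mono2 (d + 2) m h2
    have h4 := two_mul_two (d + 2)
    set N := NN m (d + 2) with hN
    set M := NN m e
    have h5 : 2 * (m + 1) * (m + 2) * (d + 1) ≤ N := by
      have h6 : (d + 4) * (4 * m ^ 2 * (m + 2)) ≤ 2 * N := by
        calc (d + 4) * (4 * m ^ 2 * (m + 2)) ≤ (d + 4) * (d + 3) := Nat.mul_le_mul_left _ hd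
          _ = 2 * NN 2 (d + 2) := by rw [h4]
          _ ≤ 2 * N := Nat.mul_le_mul_left _ h3
      have h7 : (d + 4) * (4 * (m + 1) * (m + 2)) ≤ (d + 4) * (4 * m ^ 2 * (m + 2)) := by
        refine Nat.mul_le_mul_left _ (Nat.mul_le_mul_right _ (Nat.mul_le_mul_left _ hm2))
      nlinarith
    have h1' : ((d : ℤ) + 3 - 2 * m ^ 2) * N ≤ ((d : ℤ) + 3) * M := by
      push_cast at h1
      have e1 : ((d : ℤ) + 3 - 2 * m ^ 2) * N = ((d : ℤ) + 2 + 1 - m * (2 * m)) * N := by ring
      have e2 : ((d : ℤ) + 3) * M = ((d : ℤ) + 2 + 1) * M := by ring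
      rw [e1, e2]
      exact h1
    have hp' : ((m : ℤ) + 2) * p ≤ N := by exact_mod_cast hp
    have h5' : 2 * ((m : ℤ) + 1) * (m + 2) * (d + 1) ≤ N := by exact_mod_cast h5
    have hd' : 4 * (m : ℤ) ^ 2 * (m + 2) ≤ d + 3 := by exact_mod_cast hd
    have hN0 : (0 : ℤ) ≤ (N : ℤ) := by positivity
    have key : ((m : ℤ) + 1) * (p + d + 1) ≤ M := by
      have hpos : (0 : ℤ) < 2 * (m + 2) * (d + 3) := by positivity
      refine le_of_mul_le_mul_left ?_ hpos
      have a1 := mul_le_mul_of_nonneg_left hp' (by positivity : (0 : ℤ) ≤ 2 * (m + 1) * (d + 3))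
      have a2 := mul_le_mul_of_nonneg_left h5' (by positivity : (0 : ℤ) ≤ (d : ℤ) + 3)
      have a3 := mul_le_mul_of_nonneg_left h1' (by positivity : (0 : ℤ) ≤ 2 * ((m : ℤ) + 2))
      have a4 := mul_le_mul_of_nonneg_right hd' hN0
      linarith
    exact_mod_cast key

end Pool.Agent.WarS
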