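import Pool.Agent.WarS.Stmts

/-!
# Simultaneous Waring decompositions (MP_db021c_ag), few forms: the scalar lemma   (helper74)

General double points z i, i ∈ P, and general simple points z i, i ∉ P, cut out a space of
polynomials of dimension at most NN n d - (n * |P| + |I|), whenever |P| double points can be
independent.
-/

set_option autoImplicit false

open Module MvPolynomial
open Pool.Agent.War

namespace Pool.Agent.WarS

/-- the double and the simple points -/
theorem SG_both {n d p : ℕ} (k : ℕ) (h : GG n d p) :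
    ∃ (z : Fin p → Fin n → ℂ) (y : Fin k → Fin n → ℂ),
      finrank ℂ ↥(Dbl n d Finset.univ z ⊓ ⨅ i, LinearMap.ker (ev n d (y i))) ≤
        NN n d - ((n + 1) * p + k) := by
  obtain ⟨z, hz⟩ := h
  obtain ⟨y, hy⟩ := red (Y := Fin n → ℂ) (fun y => ev n d y) (Dbl n d Finset.univ z) ⊥ (by
    intro w _ hw
    by_contra hc
    push Not at hc
    apply hw
    rw [Submodule.mem_bot]
    apply Subtype.ext
    apply MvPolynomial.funext
    intro x
    have := hc x
    rw [ev_apply] at this
    rw [this]
    simp) k
  refine ⟨z, y, hy.trans ?_⟩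
  rw [finrank_bot]
  refine max_le ?_ (Nat.zero_le _)
  omega

theorem SG : S_SG := by
  classical
  intro n d I _ P hn hP
  obtain ⟨z, y, hzy⟩ := SG_both (Fintype.card I - P.card) hP
  have e1 : Fintype.card {i // i ∈ P} = P.card := Fintype.card_coe P
  have e2 : Fintype.card {i // ¬ i ∈ P} = Fintype.card I - P.card := by
    rw [Fintype.card_subtype_compl, e1]
  let a : {i // i ∈ P} ≃ Fin P.card := Fintype.equivFinOfCardEq e1
  let b : {i // ¬ i ∈ P} ≃ Fin (Fintype.card I - P.card) := Fintype.equivFinOfCardEq e2
  let x₀ : I → Fin n → ℂ := fun i => if hi : i ∈ P then z (a ⟨i, hi⟩) else y (b ⟨i, hi⟩)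
  have hle : Dbl n d P x₀ ≤ Dbl n d Finset.univ z ⊓ ⨅ i, LinearMap.ker (ev n d (y i)) := by
    intro f hf
    obtain ⟨f1, f2⟩ := mem_Dbl.1 hf
    rw [Submodule.mem_inf, Submodule.mem_iInf, mem_Dbl]
    have key : ∀ i : Fin P.card, x₀ (a.symm i).1 = z i := by
      intro i
      simp only [x₀]
      rw [dif_pos (a.symm i).2]
      simp
    refine ⟨⟨fun i => ?_, fun i _ k => ?_⟩, fun i => ?_⟩
    · have := f1 (a.symm i).1
      rwa [key] at this
    · have := f2 (a.symm i).1 (a.symm i).2 k
      rwa [key] at this
    · rw [LinearMap.mem_ker, ev_apply]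
      have := f1 (b.symm i).1
      simp only [x₀] at this
      rw [dif_neg (b.symm i).2] at this
      simpa using this
  refine (PK_Dbl n d P).gen_finrank (x₀ := x₀) ((Submodule.finrank_mono hle).trans (hzy.trans ?_))
  have h1 : P.card ≤ Fintype.card I := Finset.card_le_univ P
  have h2 : (n + 1) * P.card = n * P.card + P.card := by ring
  omega

end Pool.Agent.WarS
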