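import Pool.Agent.WarS.Stmts

/-!
# Strong form of the weak Alexander-Hirschowitz theorem (MP_db021c_ag)   (helper14)

Section SW of PAPER.md: double points in the space and simple points on the hyperplane.
-/

set_option autoImplicit false

open Module MvPolynomial
open Pool.Agent.War

namespace Pool.Agent.WarS

namespace SWaux

/-- double points `w` in the space, simple points `y` on the hyperplane -/
noncomputable def DS (n d : ℕ) {p l : ℕ} (w : Fin p → Fin (n + 1) → ℂ) (y : Fin l → Fin n → ℂ) :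
    Submodule ℂ (Pol (n + 1) d) :=
  Dbl (n + 1) d Finset.univ w ⊓ ⨅ i, LinearMap.ker (ev (n + 1) d (hp (y i)))

/-- `p` double points and `l` simple points of the hyperplane can be independent -/
def A (n d p l : ℕ) : Prop :=
  ∃ (w : Fin p → Fin (n + 1) → ℂ) (y : Fin l → Fin n → ℂ),
    finrank ℂ (DS n d w y) + ((n + 2) * p + l) ≤ NN (n + 1) d

theorem PK_S (n d l : ℕ) : PK fun y : Fin l → Fin n → ℂ =>
    ⨅ i, LinearMap.ker (ev (n + 1) d (hp (y i))) := by
  refine PK.iInf fun i => PK.one
    (φ := fun y : Fin l → Fin n → ℂ => ev (n + 1) d (hp (y i))) fun f => ?_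
  simp only [ev_apply]
  have := ((LP_eval (f : MvPolynomial (Fin (n + 1)) ℂ)).comp_linear (hpL n)).comp_linear
    (pt (I := Fin l) i)
  exact this

theorem PK_DS (n d p l : ℕ) :
    PK fun x : (Fin p → Fin (n + 1) → ℂ) × (Fin l → Fin n → ℂ) => DS n d x.1 x.2 := by
  have h1 := (PK_Dbl (n + 1) d (I := Fin p) Finset.univ).comp
    (LinearMap.fst ℂ (Fin p → Fin (n + 1) → ℂ) (Fin l → Fin n → ℂ))
  have h2 := (PK_S n d l).comp (LinearMap.snd ℂ (Fin p → Fin (n + 1) → ℂ) (Fin l → Fin n → ℂ))
  exact h1.inf h2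

theorem A.gen {n d p l : ℕ} (h : A n d p l) :
    Gen ℂ fun x : (Fin p → Fin (n + 1) → ℂ) × (Fin l → Fin n → ℂ) =>
      finrank ℂ (DS n d x.1 x.2) ≤ NN (n + 1) d - ((n + 2) * p + l) := by
  obtain ⟨w, y, h⟩ := h
  exact (PK_DS n d p l).gen_finrank (x₀ := (w, y)) (by simp only; omega)

theorem A.le {n d p l : ℕ} (h : A n d p l) : (n + 2) * p + l ≤ NN (n + 1) d := by
  obtain ⟨w, y, h⟩ := h
  omega

/-- adding simple points on the hyperplane to a configuration of double points -/
theorem add_simple {n d p l : ℕ} (w : Fin p → Fin (n + 1) → ℂ)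
    (h0 : (n + 2) * p + l ≤ NN (n + 1) d)
    (h1 : finrank ℂ (Dbl (n + 1) d Finset.univ w) ≤ NN (n + 1) d - (n + 2) * p)
    (h2 : finrank ℂ ↥(Dbl (n + 1) d Finset.univ w ⊓ LinearMap.ker (resL n d)) ≤
      NN (n + 1) d - ((n + 2) * p + l)) : A n d p l := by
  obtain ⟨y, hy⟩ := (gen_simple (u := l) (Dbl (n + 1) d Finset.univ w)
    (((PK_Dbl (n + 1) d Finset.univ).comp_affine 0 w).congr fun _ => by simp)
    (NN (n + 1) d - ((n + 2) * p + l)) (by omega) h2).exists
  refine ⟨w, y, ?_⟩
  have : finrank ℂ (DS n d w y) ≤ NN (n + 1) d - ((n + 2) * p + l) := hy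
  omega

/-- no double points -/
theorem A_zero {n d l : ℕ} (hl : l ≤ NN n d) : A n d 0 l := by
  have h3 := finrank_Pol_le (n + 1) d
  have hN : NN n d ≤ NN (n + 1) d := by
    rcases Nat.eq_zero_or_pos d with rfl | hd
    · rw [NN_zero_right, NN_zero_right]
    · obtain ⟨e, rfl⟩ : ∃ e, d = e + 1 := ⟨d - 1, by omega⟩
      rw [NN_succ]
      exact Nat.le_add_right _ _
  refine add_simple (w := fun i => i.elim0) (by omega) ?_ ?_
  · refine (Submodule.finrank_le _).trans ?_
    simpa using h3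
  · rcases Nat.eq_zero_or_pos d with rfl | hd
    · -- degree zero
      have h4 : LinearMap.ker (resL n 0) = ⊥ := by
        rw [Submodule.eq_bot_iff]
        intro f hf
        have h5 : res n (f : MvPolynomial (Fin (n + 1)) ℂ) = 0 := congrArg Subtype.val hf
        have h6 := totalDegree_eq_zero_iff_eq_C.1 (Nat.le_zero.1 (mem_Pol.1 f.2))
        rw [h6, res_C] at h5
        apply Subtype.ext
        rw [h6, C_eq_zero.1 h5, C_0]
        rfl
      rw [h4, inf_bot_eq, finrank_bot]
      exact Nat.zero_le _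
    · obtain ⟨e, rfl⟩ : ∃ e, d = e + 1 := ⟨d - 1, by omega⟩
      have h5 := finrank_inf_ker_le (Dbl (n + 1) (e + 1) (Finset.univ : Finset (Fin 0))
        (fun i => i.elim0)) (⊤ : Submodule ℂ (Pol (n + 1) e)) (fun g _ => Submodule.mem_top)
      rw [finrank_top] at h5
      have h6 := finrank_Pol_le (n + 1) e
      have h7 := NN_succ n e
      refine h5.trans ?_
      omega

/-- the step: `u` of the double points on the hyperplane -/
theorem A_step {n d u q l : ℕ} (ha : GG n (d + 1) u) (hb : A n d q u)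
    (hnum : (n + 1) * u + l ≤ NN n (d + 1)) : A n (d + 1) (u + q) l := by
  have hbl := hb.le
  have hal := ha.le
  -- choice of the points
  have g1 : Gen ℂ fun x : (Fin q → Fin (n + 1) → ℂ) × (Fin u → Fin n → ℂ) =>
      finrank ℂ (Dbl n (d + 1) Finset.univ x.2) ≤ NN n (d + 1) - (n + 1) * u :=
    ha.gen.comp (LinearMap.snd ℂ (Fin q → Fin (n + 1) → ℂ) (Fin u → Fin n → ℂ))
      LinearMap.snd_surjective
  have g2 : Gen ℂ fun x : (Fin q → Fin (n + 1) → ℂ) × (Fin u → Fin n → ℂ) =>
      ∀ i, x.1 i 0 ≠ 0 :=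
    (gen_off (n := n) (I := Fin q)).comp
      (LinearMap.fst ℂ (Fin q → Fin (n + 1) → ℂ) (Fin u → Fin n → ℂ)) LinearMap.fst_surjective
  obtain ⟨⟨w, y⟩, ⟨hwy, hy1⟩, hw3⟩ := ((hb.gen.and g1).and g2).exists
  simp only at hwy hy1 hw3
  have e1 : NN (n + 1) (d + 1) = NN n (d + 1) + NN (n + 1) d := NN_succ n d
  have e2 : (n + 2) * (u + q) = (n + 1) * u + u + (n + 2) * q := by ring
  -- residual part
  have h3 : finrank ℂ ↥(Dbl (n + 1) (d + 1) Finset.univ (Fin.append (fun i => hp (y i)) w) ⊓
      LinearMap.ker (resL n (d + 1))) ≤ NN (n + 1) d - ((n + 2) * q + u) := by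
    refine (finrank_inf_ker_le _ _ fun g hg => ?_).trans hwy
    refine ⟨⟨fun i => ?_, fun i _ k => ?_⟩, ?_⟩
    · have h4 := hg.1 (Fin.natAdd u i)
      have h5 := hg.2 (Fin.natAdd u i) (Finset.mem_univ _)
      rw [Fin.append_right] at h4 h5
      exact (off_hyp (hw3 i) h4 h5).1
    · have h4 := hg.1 (Fin.natAdd u i)
      have h5 := hg.2 (Fin.natAdd u i) (Finset.mem_univ _)
      rw [Fin.append_right] at h4 h5
      exact (off_hyp (hw3 i) h4 h5).2 k
    · rw [SetLike.mem_coe, Submodule.mem_iInf]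
      intro i
      have h5 := hg.2 (Fin.castAdd q i) (Finset.mem_univ _) 0
      rw [Fin.append_left, eval_pderiv_mulX_zero, hp_zero, zero_mul, zero_add] at h5
      rw [LinearMap.mem_ker, ev_apply]
      exact h5
  refine add_simple (Fin.append (fun i => hp (y i)) w) (by omega) ?_ ?_
  · have h1 := finrank_le_map_add_ker (resL n (d + 1))
      (Dbl (n + 1) (d + 1) Finset.univ (Fin.append (fun i => hp (y i)) w))
    have h2 : finrank ℂ ((Dbl (n + 1) (d + 1) Finset.univ
        (Fin.append (fun i => hp (y i)) w)).map (resL n (d + 1))) ≤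
          NN n (d + 1) - (n + 1) * u := by
      refine (Submodule.finrank_mono ?_).trans hy1
      rintro _ ⟨f, hf, rfl⟩
      refine ⟨fun i => ?_, fun i _ k => ?_⟩
      · have := hf.1 (Fin.castAdd q i)
        rw [Fin.append_left, eval_hp] at this
        exact this
      · have := hf.2 (Fin.castAdd q i) (Finset.mem_univ _) k.succ
        rw [Fin.append_left, eval_hp_pderiv] at this
        exact this
    omega
  · refine h3.trans ?_
    omega

/-- the induction -/
theorem A_main {n : ℕ} (hn : 1 ≤ n) : ∀ d p l : ℕ,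
    (l = 0 ∨ (2 * n ≤ d + 1 ∧ (n + 2) * l ≤ NN n (d + 1 - 2 * n))) →
    (p = 0 ∨ (n + 2) * (p + d + 1) ≤ NN (n + 1) (d - 2 * n)) → A n d p l := by
  intro d
  induction d with
  | zero =>
    intro p l hl hp
    have hl0 : l = 0 := by
      rcases hl with h | ⟨h, -⟩
      · exact h
      · omega
    have hp0 : p = 0 := by
      rcases hp with h | h
      · exact h
      · rw [Nat.zero_sub, NN_zero_right] at h
        nlinarith
    subst hl0 hp0
    exact A_zero (Nat.zero_le _)
  | succ d ih =>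
    intro p l hl hp
    have hl' : (n + 2) * l ≤ NN n (d + 1) := by
      rcases hl with h | ⟨-, h⟩
      · subst h; simp
      · exact h.trans (NN_mono_right (by omega))
    rcases hp with rfl | hp
    · exact A_zero (by nlinarith)
    rcases Nat.eq_zero_or_pos p with rfl | hp0
    · exact A_zero (by nlinarith)
    -- `d + 1 - 2 n = k + 1`
    have hd : 2 * n ≤ d := by
      by_contra hc
      have e : d + 1 - 2 * n = 0 := by omega
      rw [e, NN_zero_right] at hp
      nlinarith
    obtain ⟨k, hk⟩ : ∃ k, d = 2 * n + k := ⟨d - 2 * n, by omega⟩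
    have e1 : d + 1 - 2 * n = k + 1 := by omega
    have e2 : d - 2 * n = k := by omega
    rw [e1, NN_succ] at hp
    obtain ⟨U, hU⟩ : ∃ U, U = NN n (k + 1) / (n + 2) := ⟨_, rfl⟩
    have hU1 : (n + 2) * U ≤ NN n (k + 1) := by rw [hU]; exact Nat.mul_div_le _ _
    have hU2 : NN n (k + 1) ≤ (n + 2) * (U + 1) := by
      have := Nat.lt_mul_div_succ (NN n (k + 1)) (show 0 < n + 2 by omega)
      rw [← hU] at this
      exact this.le
    obtain ⟨u, hu⟩ : ∃ u, u = min p U := ⟨_, rfl⟩
    have hup : u ≤ p := by rw [hu]; exact min_le_left _ _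
    have huU : u ≤ U := by rw [hu]; exact min_le_right _ _
    obtain ⟨q, rfl⟩ : ∃ q, p = u + q := ⟨p - u, by omega⟩
    have hu1 : (n + 2) * u ≤ NN n (k + 1) := (Nat.mul_le_mul_left _ huU).trans hU1
    refine A_step (WAH n (d + 1) u hn (by omega) (by rw [e1]; exact hu1)) (ih q u ?_ ?_) ?_
    · right
      exact ⟨by omega, by rw [e1]; exact hu1⟩
    · rcases Nat.eq_zero_or_pos q with h | h
      · exact Or.inl h
      · right
        have : u = U := by omega
        subst this
        rw [e2]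
        have e3 : (n + 2) * (u + q + (d + 1) + 1) = (n + 2) * (u + 1) + (n + 2) * (q + d + 1) := by
          ring
        omega
    · have h1 : NN n (k + 1) ≤ NN n (d + 1) := NN_mono_right (by omega)
      have h2 : (n + 2) * ((n + 1) * u + l) ≤ (n + 2) * NN n (d + 1) := by
        calc (n + 2) * ((n + 1) * u + l) = (n + 1) * ((n + 2) * u) + (n + 2) * l := by ring
          _ ≤ (n + 1) * NN n (d + 1) + NN n (d + 1) :=
            Nat.add_le_add (Nat.mul_le_mul_left _ (hu1.trans h1)) hl'
          _ = _ := by ring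
      exact Nat.le_of_mul_le_mul_left h2 (by omega)

end SWaux

open SWaux in
/-- strong form of the weak Alexander-Hirschowitz theorem -/
theorem SW : S_SW := by
  intro m d p hm hp
  obtain ⟨n, rfl⟩ : ∃ n, m = n + 1 := ⟨m - 1, by omega⟩
  have e : d - (2 * (n + 1) - 2) = d - 2 * n := by omega
  rw [e] at hp
  obtain ⟨w, y, h⟩ := A_main (n := n) (by omega) d p 0 (Or.inl rfl) (Or.inr hp)
  refine ⟨w, ?_⟩
  have h1 : DS n d w y = Dbl (n + 1) d Finset.univ w := by
    unfold DS
    rw [iInf_of_empty, inf_top_eq]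
  rw [h1] at h
  exact h

end Pool.Agent.WarS
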