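import Pool.Agent.WarS.Stmts

/-!
# Simultaneous Waring decompositions (MP_db021c_ag), few forms: the trace lemma   (helper91)
-/

set_option autoImplicit false

open Module MvPolynomial
open Pool.Agent.War

namespace Pool.Agent.WarS.TRAaux

/-- the parameter space -/
abbrev XX (n r u y : ℕ) : Type :=
  (Fin u → Fin n → ℂ) × (Fin (r * u) → Fin n → ℂ) × (Fin (r * u) → Fin (r + 1) → ℂ) ×
    (Fin y → Fin n → ℂ)

/-- the index set of all the points -/
abbrev II (r u y : ℕ) : Type := Fin u ⊕ (Fin (r * u) ⊕ Fin y)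

/-- the double points of the form `j` -/
def PP (r u y : ℕ) (j : Fin (r + 1)) : Finset (II r u y) :=
  Fin.cases (Finset.univ.map ⟨fun i : Fin u => Sum.inl i, Sum.inl_injective⟩)
    (fun k => Finset.univ.map ⟨fun i : Fin u => Sum.inr (Sum.inl (finProdFinEquiv (k, i))), by
      intro i i' h
      have h1 := finProdFinEquiv.injective (Sum.inl.inj (Sum.inr.inj h))
      exact (Prod.mk.inj h1).2⟩) j

theorem card_PP (r u y : ℕ) (j : Fin (r + 1)) : (PP r u y j).card = u := by
  refine Fin.cases ?_ (fun k => ?_) j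
  · simp [PP]
  · simp [PP]

theorem card_II (r u y : ℕ) : Fintype.card (II r u y) = u + (r * u + y) := by
  simp

/-- all the points -/
def allL (n r u y : ℕ) : XX n r u y →ₗ[ℂ] (II r u y → Fin n → ℂ) where
  toFun x := Sum.elim x.1 (Sum.elim x.2.1 x.2.2.2)
  map_add' x x' := by
    funext i
    rcases i with i | i | i <;> rfl
  map_smul' c x := by
    funext i
    rcases i with i | i | i <;> rfl

theorem allL_surj (n r u y : ℕ) : Function.Surjective (allL n r u y) := by
  intro z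
  refine ⟨(fun i => z (Sum.inl i), fun i => z (Sum.inr (Sum.inl i)), 0,
    fun i => z (Sum.inr (Sum.inr i))), ?_⟩
  funext i
  rcases i with i | i | i <;> rfl

theorem Dbl_bot {n d : ℕ} {I : Type} {P : Finset I} {z : I → Fin n → ℂ} {k : ℕ}
    (h : finrank ℂ (Dbl n d P z) ≤ k) (hk : k = 0) : Dbl n d P z = ⊥ := by
  subst hk
  exact Submodule.finrank_eq_zero.1 (Nat.le_zero.1 h)

section PKs

variable {X : Type} [AddCommGroup X] [Module ℂ X] {n d : ℕ} {γ : Type} [Fintype γ]

theorem LP_ev (L : X →ₗ[ℂ] (Fin n → ℂ)) (f : MvPolynomial (Fin n) ℂ) :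
    LP (K := ℂ) (X := X) fun x => eval (L x) f :=
  (LP_eval f).comp_linear L

/-- vanishing of all the forms at a point -/
theorem PK_ev {α : Type} [Finite α] (L : α → X →ₗ[ℂ] (Fin n → ℂ)) :
    PK (K := ℂ) (V := γ → Pol n d) fun x : X =>
      ⨅ q : α × γ, LinearMap.ker ((ev n d (L q.1 x)).comp
        (LinearMap.proj q.2 : (γ → Pol n d) →ₗ[ℂ] Pol n d)) := by
  refine PK.iInf fun q => PK.one (φ := fun x : X =>
    (ev n d (L q.1 x)).comp (LinearMap.proj q.2 : (γ → Pol n d) →ₗ[ℂ] Pol n d)) fun f => ?_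
  simp only [LinearMap.comp_apply, LinearMap.proj_apply, ev_apply]
  exact LP_ev (L q.1) _

/-- derivatives along a vector -/
theorem PK_dv {α : Type} [Finite α] (L : α → X →ₗ[ℂ] (Fin n → ℂ)) (A : α → X → γ → ℂ)
    (hA : ∀ i j, LP (K := ℂ) fun x => A i x j) :
    PK (K := ℂ) (V := γ → Pol n d) fun x : X =>
      ⨅ q : α × Fin n, LinearMap.ker (∑ j, A q.1 x j • (dv n d q.2 (L q.1 x)).comp
        (LinearMap.proj j : (γ → Pol n d) →ₗ[ℂ] Pol n d)) := by
  refine PK.iInf fun q => PK.one (φ := fun x : X =>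
    ∑ j, A q.1 x j • (dv n d q.2 (L q.1 x)).comp
      (LinearMap.proj j : (γ → Pol n d) →ₗ[ℂ] Pol n d)) fun f => ?_
  simp only [LinearMap.sum_apply, LinearMap.smul_apply, LinearMap.comp_apply,
    LinearMap.proj_apply, dv_apply, smul_eq_mul]
  exact LP.sum _ fun j _ => (hA _ _).mul (LP_ev (L q.1) _)

end PKs

/-- projections of the parameter space -/
def pr1 {n r u y : ℕ} (i : Fin u) : XX n r u y →ₗ[ℂ] (Fin n → ℂ) :=
  (pt (n := n) i).comp (LinearMap.fst ℂ _ _)

def pr2 {n r u y : ℕ} (i : Fin (r * u)) : XX n r u y →ₗ[ℂ] (Fin n → ℂ) :=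
  (pt (n := n) i).comp ((LinearMap.fst ℂ _ _).comp (LinearMap.snd ℂ _ _))

def prA {n r u y : ℕ} (i : Fin (r * u)) : XX n r u y →ₗ[ℂ] (Fin (r + 1) → ℂ) :=
  (pt (n := r + 1) i).comp ((LinearMap.fst ℂ _ _).comp ((LinearMap.snd ℂ _ _).comp
    (LinearMap.snd ℂ _ _)))

def pr0 {n r u y : ℕ} (i : Fin y) : XX n r u y →ₗ[ℂ] (Fin n → ℂ) :=
  (pt (n := n) i).comp ((LinearMap.snd ℂ _ _).comp ((LinearMap.snd ℂ _ _).comp
    (LinearMap.snd ℂ _ _)))

@[simp] theorem pr1_apply {n r u y : ℕ} (i : Fin u) (x : XX n r u y) : pr1 i x = x.1 i := rfl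
@[simp] theorem pr2_apply {n r u y : ℕ} (i : Fin (r * u)) (x : XX n r u y) :
    pr2 i x = x.2.1 i := rfl
@[simp] theorem prA_apply {n r u y : ℕ} (i : Fin (r * u)) (x : XX n r u y) :
    prA i x = x.2.2.1 i := rfl
@[simp] theorem pr0_apply {n r u y : ℕ} (i : Fin y) (x : XX n r u y) : pr0 i x = x.2.2.2 i := rfl

/-- the trace space -/
noncomputable def TV (n d r u y : ℕ) (x : XX n r u y) : Submodule ℂ (Fin (r + 1) → Pol n d) :=
  ((⨅ q : Fin u × Fin (r + 1), LinearMap.ker ((ev n d (pr1 q.1 x)).comp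
      (LinearMap.proj q.2 : (Fin (r + 1) → Pol n d) →ₗ[ℂ] Pol n d))) ⊓
   (⨅ q : Fin u × Fin n, LinearMap.ker (∑ j, (Pi.single 0 1 : Fin (r + 1) → ℂ) j •
      (dv n d q.2 (pr1 q.1 x)).comp
      (LinearMap.proj j : (Fin (r + 1) → Pol n d) →ₗ[ℂ] Pol n d)))) ⊓
  ((⨅ q : Fin (r * u) × Fin (r + 1), LinearMap.ker ((ev n d (pr2 q.1 x)).comp
      (LinearMap.proj q.2 : (Fin (r + 1) → Pol n d) →ₗ[ℂ] Pol n d))) ⊓
   (⨅ q : Fin (r * u) × Fin n, LinearMap.ker (∑ j, prA q.1 x j •
      (dv n d q.2 (pr2 q.1 x)).comp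
      (LinearMap.proj j : (Fin (r + 1) → Pol n d) →ₗ[ℂ] Pol n d)))) ⊓
  (⨅ q : Fin y × Fin (r + 1), LinearMap.ker ((ev n d (pr0 q.1 x)).comp
      (LinearMap.proj q.2 : (Fin (r + 1) → Pol n d) →ₗ[ℂ] Pol n d)))

theorem PK_TV (n d r u y : ℕ) : PK (K := ℂ) fun x : XX n r u y => TV n d r u y x := by
  refine (((PK_ev _).inf (PK_dv _ (fun _ _ => Pi.single 0 1) fun _ _ => LP.const _)).inf
    ((PK_ev _).inf (PK_dv _ (fun i x => prA i x) fun i j => ?_))).inf (PK_ev _)
  exact LP.linear ((LinearMap.proj j : (Fin (r + 1) → ℂ) →ₗ[ℂ] ℂ).comp (prA i))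

theorem mem_TV {n d r u y : ℕ} {x : XX n r u y} {f : Fin (r + 1) → Pol n d} :
    f ∈ TV n d r u y x ↔
      (((∀ i j, eval (x.1 i) (f j : MvPolynomial (Fin n) ℂ) = 0) ∧
        (∀ i k, eval (x.1 i) (pderiv k (f 0 : MvPolynomial (Fin n) ℂ)) = 0)) ∧
      ((∀ i j, eval (x.2.1 i) (f j : MvPolynomial (Fin n) ℂ) = 0) ∧
        (∀ i k, ∑ j, x.2.2.1 i j *
          eval (x.2.1 i) (pderiv k (f j : MvPolynomial (Fin n) ℂ)) = 0))) ∧
      (∀ i j, eval (x.2.2.2 i) (f j : MvPolynomial (Fin n) ℂ) = 0) := by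
  simp only [TV, Submodule.mem_inf, Submodule.mem_iInf, LinearMap.mem_ker, LinearMap.comp_apply,
    LinearMap.sum_apply, LinearMap.smul_apply, LinearMap.proj_apply, ev_apply, dv_apply,
    smul_eq_mul, Prod.forall, pr1_apply, pr2_apply, prA_apply, pr0_apply]
  have e : ∀ (i : Fin u) (k : Fin n), (∑ j, (Pi.single 0 1 : Fin (r + 1) → ℂ) j *
      eval (x.1 i) (pderiv k (f j : MvPolynomial (Fin n) ℂ))) =
      eval (x.1 i) (pderiv k (f 0 : MvPolynomial (Fin n) ℂ)) := by
    intro i k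
    rw [Finset.sum_eq_single 0]
    · rw [Pi.single_eq_same, one_mul]
    · intro j _ hj
      rw [Pi.single_eq_of_ne hj, zero_mul]
    · intro h
      exact absurd (Finset.mem_univ _) h
  simp only [e]

end Pool.Agent.WarS.TRAaux

namespace Pool.Agent.WarS

open TRAaux

theorem TRA (hSG : S_SG) : S_TRA := by
  classical
  intro n d r u y hn hG hN
  have hcard : ∀ j, NN n (d + 2) - (n * (PP r u y j).card + Fintype.card (II r u y)) = 0 := by
    intro j
    rw [card_PP, card_II]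
    have : (n + r + 1) * u = n * u + (u + r * u) := by ring
    omega
  have hgen : ∀ j, Gen ℂ fun z : II r u y → Fin n → ℂ =>
      finrank ℂ (Dbl n (d + 2) (PP r u y j) z) ≤
        NN n (d + 2) - (n * (PP r u y j).card + Fintype.card (II r u y)) := fun j =>
    hSG n (d + 2) (II r u y) (PP r u y j) hn (by rw [card_PP]; exact hG)
  -- scalar part
  have hS : Gen ℂ fun x : XX n r u y => TraS d x.1 x.2.1 x.2.2.2 := by
    refine ((hgen 0).comp (allL n r u y) (allL_surj n r u y)).mono fun x hx => ?_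
    have hb := Dbl_bot hx (hcard 0)
    intro f hf h1 h2 h3 h4
    have hm : (⟨f, mem_Pol.2 hf⟩ : Pol n (d + 2)) ∈
        Dbl n (d + 2) (PP r u y 0) (allL n r u y x) := by
      rw [mem_Dbl]
      refine ⟨?_, fun i hi k => ?_⟩
      · rintro (i | i | i)
        · exact h1 i
        · exact h3 i
        · exact h4 i
      · obtain ⟨i', -, rfl⟩ := Finset.mem_map.1 hi
        exact h2 i' k
    rw [hb, Submodule.mem_bot] at hm
    exact congrArg Subtype.val hm
  -- vector part
  have hV : Gen ℂ fun x : XX n r u y => TraV d x.1 x.2.1 x.2.2.1 x.2.2.2 := by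
    obtain ⟨z, hz⟩ := (Gen.forall hgen).exists
    have hD : ∀ j, Dbl n (d + 2) (PP r u y j) z = ⊥ := fun j => Dbl_bot (hz j) (hcard j)
    let x₀ : XX n r u y := (fun i => z (Sum.inl i), fun i => z (Sum.inr (Sum.inl i)),
      fun q => Pi.single (finProdFinEquiv.symm q).1.succ 1, fun i => z (Sum.inr (Sum.inr i)))
    have h0 : TV n (d + 2) r u y x₀ = ⊥ := by
      rw [eq_bot_iff]
      intro f hf
      rw [mem_TV] at hf
      obtain ⟨⟨⟨k1, k2⟩, k3, k4⟩, k5⟩ := hf
      rw [Submodule.mem_bot]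
      funext j
      have : f j ∈ Dbl n (d + 2) (PP r u y j) z := by
        rw [mem_Dbl]
        refine ⟨?_, ?_⟩
        · rintro (i | i | i)
          · exact k1 i j
          · exact k3 i j
          · exact k5 i j
        · intro i hi k
          revert hi
          refine Fin.cases ?_ (fun l => ?_) j
          · intro hi
            obtain ⟨i', -, rfl⟩ := Finset.mem_map.1 hi
            exact k2 i' k
          · intro hi
            obtain ⟨i', -, rfl⟩ := Finset.mem_map.1 hi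
            have h := k4 (finProdFinEquiv (l, i')) k
            rw [Finset.sum_eq_single l.succ] at h
            · simp only [x₀, Equiv.symm_apply_apply, Pi.single_eq_same, one_mul] at h
              exact h
            · intro j' _ hj'
              simp only [x₀, Equiv.symm_apply_apply]
              rw [Pi.single_eq_of_ne hj', zero_mul]
            · intro h'
              exact absurd (Finset.mem_univ _) h'
      rw [hD, Submodule.mem_bot] at this
      rw [this]
      rfl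
    refine ((PK_TV n (d + 2) r u y).gen_bot h0).mono fun x hx => ?_
    intro f hf h1 h2 h3 h4 h5 j
    have hm : (fun j => (⟨f j, mem_Pol.2 (hf j)⟩ : Pol n (d + 2))) ∈ TV n (d + 2) r u y x := by
      rw [mem_TV]
      exact ⟨⟨⟨h1, h2⟩, h3, h4⟩, h5⟩
    rw [hx, Submodule.mem_bot] at hm
    exact congrArg Subtype.val (congrFun hm j)
  exact hS.and hV

end Pool.Agent.WarS
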