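import Pool.Agent.WarS.FEW
import Pool.Agent.WarS.GD
import Pool.Agent.WarS.SW
import Pool.Agent.WarS.SG
import Pool.Agent.WarS.HD
import Pool.Agent.WarS.RES
import Pool.Agent.WarS.TRA
import Pool.Agent.WarS.DH
import Pool.Agent.WarS.NUM
import Pool.Agent.War.Main
import Pool.Agent.War.AR
import Pool.Agent.War.C1
import Pool.Agent.War.C2
import Pool.Agent.Lib_helper88.Waring.Tern

/-!
# Simultaneous Waring decompositions (MP_db021c_ag): few forms, final form   (helper88)
-/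

set_option autoImplicit false

open Module MvPolynomial

namespace Pool.Agent.WarS

theorem few : S_FEW := FEW (GD SW) (RES SG (HD SG)) (TRA SG) DH NUM

/-- at most n forms -/
theorem W_few (n d s h : ℕ) (hn : 2 ≤ n) (hs : 2 ≤ s) (hsn : s ≤ n)
    (hd : 4 * n ^ 2 * (n + 2) ≤ d + 1) :
    Waring.W d h n s ↔ min s ((n + d).choose n) ≤ h ∧ s * (n + d).choose n ≤ h * (n + s) := by
  have h16 : 16 ≤ 4 * n ^ 2 := by nlinarith
  have h64 : 64 ≤ 4 * n ^ 2 * (n + 2) := by nlinarith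
  refine ⟨fun H => ⟨H.bound2, H.bound1 (by omega)⟩, fun H => ?_⟩
  obtain ⟨m, rfl⟩ : ∃ m, n = m + 1 := ⟨n - 1, by omega⟩
  obtain ⟨r, rfl⟩ : ∃ r, s = r + 1 := ⟨s - 1, by omega⟩
  obtain ⟨e, rfl⟩ : ∃ e, d = e + 2 := ⟨d - 2, by omega⟩
  have h2 : (r + 1) * War.NN (m + 1) (e + 2) ≤ (m + r + 2) * h := by
    have := H.2
    unfold War.NN
    calc _ ≤ _ := this
      _ = _ := by ring
  obtain ⟨z, a, y, hK⟩ := few m e r h (by omega) (by omega) (by omega)
    (by linarith) h2
  exact Waring.W_of_dual z a fun g hg h1 h2 => hK g hg h1 h2 fun i => i.elim0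

/-- final form -/
theorem W_all (n d s h : ℕ) (hn : 2 ≤ n) (hd : 1 ≤ d) (hs : 2 ≤ s)
    (hds : 4 * n ^ 2 * (n + 2) ≤ d + 1 ∨
      (n + 1 ≤ s ∧ (n = 2 ∨ n ^ 3 + 60 ≤ d ∨ (n + d).choose n ≤ s))) :
    Waring.W d h n s ↔ min s ((n + d).choose n) ≤ h ∧ s * (n + d).choose n ≤ h * (n + s) := by
  by_cases hsn : n + 1 ≤ s
  · by_cases h2 : n = 2
    · subst h2
      rw [Nat.add_comm 2 d, Nat.add_comm 2 s]
      exact Waring.ternary d h s hd (by omega)
    · have h3 : n ^ 3 + 60 ≤ d ∨ (n + d).choose n ≤ s := by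
        rcases hds with h | ⟨-, h | h | h⟩
        · left
          have : n ^ 3 + 60 + 1 ≤ 4 * n ^ 2 * (n + 2) := by
            have h4 : 3 ≤ n := by omega
            have h5 : 9 ≤ n ^ 2 := by nlinarith
            nlinarith
          omega
        · exact absurd h h2
        · exact Or.inl h
        · exact Or.inr h
      have hSC := War.SC War.WAH
      exact War.W_iff (War.TOP (War.BLK (War.C0 hSC War.AR) (War.C1 hSC War.AR) (War.C2 War.X)) hSC)
        hSC n d s h hn hd hsn h3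
  · have h4 : 4 * n ^ 2 * (n + 2) ≤ d + 1 := by
      rcases hds with h | ⟨h, -⟩
      · exact h
      · exact absurd h hsn
    exact W_few n d s h hn hs (by omega) h4

end Pool.Agent.WarS
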