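import Pool.Agent.WarS.Stmts

/-!
# Simultaneous Waring decompositions (MP_db021c_ag), few forms: assembly   (helper88)
-/

set_option autoImplicit false

open Module MvPolynomial
open Pool.Agent.War

namespace Pool.Agent.WarS

namespace FEWm

theorem fib_sigma {s : ℕ} (p : Fin s → ℕ) (j : Fin s) :
    fib (fun i : (j : Fin s) × Fin (p j) => i.1) j = p j := by
  unfold fib
  have h : (Finset.univ.filter fun i : (j : Fin s) × Fin (p j) => i.1 = j) =
      Finset.univ.image fun k : Fin (p j) => (⟨j, k⟩ : (j : Fin s) × Fin (p j)) := by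
    ext ⟨i, k⟩
    simp only [Finset.mem_filter, Finset.mem_univ, true_and, Finset.mem_image]
    constructor
    · rintro rfl
      exact ⟨k, rfl⟩
    · rintro ⟨k', hk⟩
      have := congrArg Sigma.fst hk
      exact this.symm
  rw [h, Finset.card_image_of_injective]
  · simp
  · intro k k' hk
    simpa using hk

/-- the critical case, as a statement on the sum type of all points -/
theorem crit (hGD : S_GD) (hRES : S_RES) (hTRA : S_TRA) (hDH : S_DH) (hNUM : S_NUM)
    {n d r : ℕ} (hn : 1 ≤ n) (hr : 1 ≤ r) (hrn : r ≤ n)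
    (hd : 4 * (n + 1) ^ 2 * (n + 3) ≤ d + 3) {h : ℕ}
    (h1 : (r + 1) * NN (n + 1) (d + 2) ≤ (n + r + 2) * h)
    (h2 : (n + r + 2) * h < (r + 1) * NN (n + 1) (d + 2) + (n + r + 2)) :
    ∃ (z : Fin h → Fin (n + 1) → ℂ) (a : Fin h → Fin (r + 1) → ℂ),
      ∀ f : Fin (r + 1) → MvPolynomial (Fin (n + 1)) ℂ, (∀ j, (f j).totalDegree ≤ d + 2) →
        (∀ i j, eval (z i) (f j) = 0) →
        (∀ i k, ∑ j, a i j * eval (z i) (pderiv k (f j)) = 0) → ∀ j, f j = 0 := by
  obtain ⟨u, y, p, e1, hy, e2, c1, c2, c3, c4⟩ := hNUM n d r hn hr hrn hd h h1 h2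
  let I := (j : Fin (r + 1)) × Fin (p j)
  let π : I → Fin (r + 1) := fun i => i.1
  have hfib : ∀ j, fib π j = p j := fib_sigma p
  have hcard : Fintype.card I = ∑ j, p j := by
    rw [Fintype.card_sigma]
    simp
  set m := ∑ j, p j with hm
  have hn2 : 4 * n ^ 2 * (n + 2) ≤ 4 * (n + 1) ^ 2 * (n + 3) := by
    have : n ^ 2 ≤ (n + 1) ^ 2 := Nat.pow_le_pow_left (by omega) 2
    exact Nat.mul_le_mul (Nat.mul_le_mul_left 4 this) (by omega)
  have hlin : ∀ k : ℕ, k + 1 ≤ NN n k := by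
    intro k
    obtain ⟨n', rfl⟩ : ∃ n', n = n' + 1 := ⟨n - 1, by omega⟩
    clear * -
    induction k with
    | zero => rw [NN_zero_right]
    | succ k ih =>
      rw [NN_succ]
      have := NN_pos n' (k + 1)
      omega
  -- double points
  have g1 : ∀ j, GG (n + 1) d (fib π j) := fun j => by
    rw [hfib]
    exact hGD (n + 1) d (p j) (by omega) hd (c4 j)
  have g2 : ∀ j, GG (n + 1) (d + 1) (fib π j) := fun j => by
    rw [hfib]
    exact hGD (n + 1) (d + 1) (p j) (by omega) (hd.trans (by omega))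
      ((c4 j).trans (NN_mono_right (by omega)))
  have g3 : GG n (d + 1) y := by
    refine hGD n (d + 1) y hn (hn2.trans (hd.trans (by omega))) ?_
    have a1 := hlin (d + 1 + 2)
    have a2 : (n + 2) * y ≤ (n + 2) * (2 * n) := Nat.mul_le_mul_left _ (by omega)
    have a3 : (n + 2) * (2 * n) ≤ 4 * (n + 1) ^ 2 * (n + 3) := by nlinarith
    omega
  have g4 : GG n (d + 2) u := by
    refine hGD n (d + 2) u hn (hn2.trans (hd.trans (by omega))) ?_
    have a1 : NN n (d + 2) ≤ NN n (d + 2 + 2) := NN_mono_right (by omega)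
    have a2 : (n + 2) * u ≤ (n + r + 1) * u := Nat.mul_le_mul_right _ (by omega)
    omega
  have hN := NN_succ n (d + 1)
  have key : (r + 1) * NN (n + 1) (d + 1) ≤
      (n + r + 2) * Fintype.card I + (n + 1) * y + u + r * u := by
    rw [hcard]
    rw [← e2, hN, e1] at h1
    nlinarith
  have R := hRES n d r u (r * u) y I π hn g1 g2 g3 (fun j => by rw [hfib, hcard]; exact c1 j)
    (by rw [hfib, hcard]; exact c2) (fun j => by rw [hfib, hcard]; exact c3 j) key
  have T := hTRA n d r u y hn g4 (le_of_eq e1)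
  have O : Gen ℂ fun z : I → Fin (n + 1) → ℂ => ∀ i, z i 0 ≠ 0 := gen_off
  have T' := T.comp (LinearMap.snd ℂ (I → Fin (n + 1) → ℂ) ((Fin u → Fin n → ℂ) ×
    (Fin (r * u) → Fin n → ℂ) × (Fin (r * u) → Fin (r + 1) → ℂ) × (Fin y → Fin n → ℂ)))
    Prod.snd_surjective
  have O' := O.comp (LinearMap.fst ℂ (I → Fin (n + 1) → ℂ) ((Fin u → Fin n → ℂ) ×
    (Fin (r * u) → Fin n → ℂ) × (Fin (r * u) → Fin (r + 1) → ℂ) × (Fin y → Fin n → ℂ)))
    Prod.fst_surjective
  obtain ⟨⟨w, z1, z2, a, z0⟩, ⟨hR, hT⟩, hO⟩ := ((R.and T').and O').exists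
  obtain ⟨t, ht⟩ := hDH n d r u (r * u) y I π w z1 z2 a z0 hO hT.1 hT.2 hR
  -- all points
  let α := I ⊕ (Fin u ⊕ (Fin (r * u) ⊕ Fin y))
  have hα : Fintype.card α = h := by
    simp only [α, Fintype.card_sum, Fintype.card_fin]
    rw [hcard, ← e2]
    ring
  let e : α ≃ Fin h := Fintype.equivFinOfCardEq hα
  let Z : α → Fin (n + 1) → ℂ := Sum.elim w (Sum.elim (fun i => hp (z1 i))
    (Sum.elim (fun i => hp (z2 i)) (fun i => Fin.cons t (z0 i))))
  let A : α → Fin (r + 1) → ℂ := Sum.elim (fun i => Pi.single (π i) 1)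
    (Sum.elim (fun _ => Pi.single 0 1) (Sum.elim a (fun _ => Pi.single 0 1)))
  have hs : ∀ (k : Fin (r + 1)) (g : Fin (r + 1) → ℂ),
      ∑ j, (Pi.single k 1 : Fin (r + 1) → ℂ) j * g j = g k := by
    intro k g
    rw [Finset.sum_eq_single k]
    · rw [Pi.single_eq_same, one_mul]
    · intro j _ hj
      rw [Pi.single_eq_of_ne hj, zero_mul]
    · intro hk
      exact absurd (Finset.mem_univ k) hk
  refine ⟨fun i => Z (e.symm i), fun i => A (e.symm i), fun f hf hf0 hf1 => ?_⟩
  have k0 : ∀ x : α, ∀ j, eval (Z x) (f j) = 0 := fun x j => by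
    have := hf0 (e x) j
    simpa only [Equiv.symm_apply_apply] using this
  have k1 : ∀ x : α, ∀ k, ∑ j, A x j * eval (Z x) (pderiv k (f j)) = 0 := fun x k => by
    have := hf1 (e x) k
    simpa only [Equiv.symm_apply_apply] using this
  refine ht f hf (fun i j => k0 (Sum.inl i) j) (fun i k => ?_)
    (fun i j => k0 (Sum.inr (Sum.inl i)) j) (fun i k => ?_)
    (fun i j => k0 (Sum.inr (Sum.inr (Sum.inl i))) j)
    (fun i k => k1 (Sum.inr (Sum.inr (Sum.inl i))) k)
    (fun i j => k0 (Sum.inr (Sum.inr (Sum.inr i))) j) (fun i k => ?_)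
  · have := k1 (Sum.inl i) k
    rw [← hs (π i) (fun j => eval (w i) (pderiv k (f j)))]
    exact this
  · have := k1 (Sum.inr (Sum.inl i)) k
    rw [← hs 0 (fun j => eval (hp (z1 i)) (pderiv k (f j)))]
    exact this
  · have := k1 (Sum.inr (Sum.inr (Sum.inr i))) k
    rw [← hs 0 (fun j => eval (Fin.cons t (z0 i) : Fin (n + 1) → ℂ) (pderiv k (f j)))]
    exact this

end FEWm

open FEWm in
/-- few forms -/
theorem FEW (hGD : S_GD) (hRES : S_RES) (hTRA : S_TRA) (hDH : S_DH) (hNUM : S_NUM) : S_FEW := by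
  intro n d r h hn hr hrn hd hh
  -- the critical value
  set D := n + r + 2 with hD
  have hDp : 0 < D := by omega
  set B := (r + 1) * NN (n + 1) (d + 2) with hB
  set h0 := (B + (D - 1)) / D with hh0
  have a1 : B ≤ D * h0 := by
    have := Nat.lt_mul_div_succ (B + (D - 1)) hDp
    rw [← hh0, Nat.mul_add, mul_one] at this
    omega
  have a2 : D * h0 < B + D := by
    have : D * h0 ≤ B + (D - 1) := by rw [hh0]; exact Nat.mul_div_le _ _
    omega
  have a3 : h0 ≤ h := by
    by_contra hc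
    push Not at hc
    have : D * (h + 1) ≤ D * h0 := Nat.mul_le_mul_left _ hc
    rw [Nat.mul_add, mul_one] at this
    omega
  obtain ⟨z, a, hz⟩ := crit hGD hRES hTRA hDH hNUM hn hr hrn hd a1 a2
  refine ⟨fun i => if hi : i.val < h0 then z ⟨i.val, hi⟩ else 0,
    fun i => if hi : i.val < h0 then a ⟨i.val, hi⟩ else 0, fun i => i.elim0, ?_⟩
  intro f hf hf0 hf1 _
  refine hz f hf (fun i j => ?_) (fun i k => ?_)
  · have := hf0 (Fin.castLE a3 i) j
    simpa using this
  · have := hf1 (Fin.castLE a3 i) k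
    simpa using this

end Pool.Agent.WarS
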