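import Pool.Agent.War.WAH

/-!
# Simultaneous Waring decompositions (MP_db021c_ag), few forms: statements   (helper88)

Range 2 ≤ s ≤ n (n variables of the affine chart), d large.  See PAPER.md in this directory.
In this file the number of variables is n + 1 (hyperplane x₀ = 0 with n variables), the number of
forms is s = r + 1 (the first form, with index 0, is special), the degree is d + 2.
S_X is proved by a theorem X : S_X, or X (h : S_Y) .. : S_X when it uses other modules.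
-/

set_option autoImplicit false

open Module MvPolynomial
open Pool.Agent.War

namespace Pool.Agent.WarS

/-! ## scalar facts -/

/-- strong form of the weak Alexander-Hirschowitz theorem -/
def S_SW : Prop := ∀ m d p : ℕ, 2 ≤ m → (m + 1) * (p + d + 1) ≤ NN m (d - (2 * m - 2)) → GG m d p

/-- the form which is used -/
def S_GD : Prop := ∀ m d p : ℕ, 1 ≤ m → 4 * m ^ 2 * (m + 2) ≤ d + 3 →
  (m + 2) * p ≤ NN m (d + 2) → GG m d p

/-- scalar lemma: double points z i, i ∈ P, and simple points z i, i ∉ P -/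
def S_SG : Prop := ∀ (n d : ℕ) (I : Type) [Fintype I] (P : Finset I), 1 ≤ n → GG n d P.card →
  Gen ℂ fun z : I → Fin n → ℂ =>
    finrank ℂ (Dbl n d P z) ≤ NN n d - (n * P.card + Fintype.card I)

/-- double points w i, i ∈ P, simple points w i, i ∉ P, and points hp (z k) which are double along
the hyperplane -/
noncomputable def DblH (n d : ℕ) {I : Type} {y : ℕ} (P : Finset I) (w : I → Fin (n + 1) → ℂ)
    (z : Fin y → Fin n → ℂ) : Submodule ℂ (Pol (n + 1) d) :=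
  Dbl (n + 1) d P w ⊓ (Dbl n d Finset.univ z).comap (resL n d)

/-- points which are double along the hyperplane -/
def S_HD : Prop := ∀ (n d y : ℕ) (I : Type) [Fintype I] (P : Finset I), 1 ≤ n →
  GG (n + 1) d P.card → GG n (d + 1) y →
  NN (n + 1) d ≤ (n + 1) * P.card + Fintype.card I →
  Gen ℂ fun x : (I → Fin (n + 1) → ℂ) × (Fin y → Fin n → ℂ) =>
    finrank ℂ (DblH n (d + 1) P x.1 x.2) ≤
      NN (n + 1) (d + 1) - ((n + 1) * P.card + Fintype.card I + (n + 1) * y)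

/-! ## residual conditions -/

/-- number of the points of type j -/
def fib {I : Type} [Fintype I] {s : ℕ} (π : I → Fin s) (j : Fin s) : ℕ :=
  (Finset.univ.filter fun i => π i = j).card

/-- residual conditions: points w off the hyperplane, of type π; points z1 (first form), z2 with
vectors a (all forms), and z0 (first form, double along the hyperplane) on the hyperplane -/
structure ResC {n r u v y : ℕ} {I : Type} (π : I → Fin (r + 1)) (w : I → Fin (n + 1) → ℂ)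
    (z1 : Fin u → Fin n → ℂ) (z2 : Fin v → Fin n → ℂ) (a : Fin v → Fin (r + 1) → ℂ)
    (z0 : Fin y → Fin n → ℂ) (g : Fin (r + 1) → MvPolynomial (Fin (n + 1)) ℂ) : Prop where
  off0 : ∀ i j, eval (w i) (g j) = 0
  off1 : ∀ i k, eval (w i) (pderiv k (g (π i))) = 0
  p1 : ∀ i, eval (hp (z1 i)) (g 0) = 0
  p2 : ∀ i, ∑ j, a i j * eval (hp (z2 i)) (g j) = 0
  h0 : ∀ i, eval (hp (z0 i)) (g 0) = 0
  h1 : ∀ i (k : Fin n), eval (hp (z0 i)) (pderiv k.succ (g 0)) = 0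

/-- the residual conditions have no solution of degree ≤ d + 1 -/
def ResZ (d : ℕ) {n r u v y : ℕ} {I : Type} (π : I → Fin (r + 1)) (w : I → Fin (n + 1) → ℂ)
    (z1 : Fin u → Fin n → ℂ) (z2 : Fin v → Fin n → ℂ) (a : Fin v → Fin (r + 1) → ℂ)
    (z0 : Fin y → Fin n → ℂ) : Prop :=
  ∀ g : Fin (r + 1) → MvPolynomial (Fin (n + 1)) ℂ, (∀ j, (g j).totalDegree ≤ d + 1) →
    ResC π w z1 z2 a z0 g → ∀ j, g j = 0

/-- residual lemma -/
def S_RES : Prop := ∀ (n d r u v y : ℕ) (I : Type) [Fintype I] (π : I → Fin (r + 1)), 1 ≤ n →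
  (∀ j, GG (n + 1) d (fib π j)) → (∀ j, GG (n + 1) (d + 1) (fib π j)) → GG n (d + 1) y →
  (∀ j, NN (n + 1) d ≤ (n + 1) * fib π j + Fintype.card I) →
  (n + 1) * fib π 0 + Fintype.card I + (n + 1) * y + u ≤ NN (n + 1) (d + 1) →
  (∀ j, (n + 1) * fib π j + Fintype.card I ≤ NN (n + 1) (d + 1)) →
  (r + 1) * NN (n + 1) (d + 1) ≤ (n + r + 2) * Fintype.card I + (n + 1) * y + u + v →
  Gen ℂ fun x : (I → Fin (n + 1) → ℂ) × (Fin u → Fin n → ℂ) × (Fin v → Fin n → ℂ) ×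
      (Fin v → Fin (r + 1) → ℂ) × (Fin y → Fin n → ℂ) =>
    ResZ d π x.1 x.2.1 x.2.2.1 x.2.2.2.1 x.2.2.2.2

/-! ## trace conditions -/

/-- scalar trace conditions: double points z1, simple points z2 and z0 -/
def TraS {n u v y : ℕ} (d : ℕ) (z1 : Fin u → Fin n → ℂ) (z2 : Fin v → Fin n → ℂ)
    (z0 : Fin y → Fin n → ℂ) : Prop :=
  ∀ f : MvPolynomial (Fin n) ℂ, f.totalDegree ≤ d + 2 → (∀ i, eval (z1 i) f = 0) →
    (∀ i k, eval (z1 i) (pderiv k f) = 0) → (∀ i, eval (z2 i) f = 0) →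
    (∀ i, eval (z0 i) f = 0) → f = 0

/-- trace conditions: full points (z1, e_0), full points (z2, a), simple points z0 -/
def TraV {n r u v y : ℕ} (d : ℕ) (z1 : Fin u → Fin n → ℂ) (z2 : Fin v → Fin n → ℂ)
    (a : Fin v → Fin (r + 1) → ℂ) (z0 : Fin y → Fin n → ℂ) : Prop :=
  ∀ f : Fin (r + 1) → MvPolynomial (Fin n) ℂ, (∀ j, (f j).totalDegree ≤ d + 2) →
    (∀ i j, eval (z1 i) (f j) = 0) → (∀ i k, eval (z1 i) (pderiv k (f 0)) = 0) →
    (∀ i j, eval (z2 i) (f j) = 0) →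
    (∀ i k, ∑ j, a i j * eval (z2 i) (pderiv k (f j)) = 0) →
    (∀ i j, eval (z0 i) (f j) = 0) → ∀ j, f j = 0

/-- trace lemma -/
def S_TRA : Prop := ∀ (n d r u y : ℕ), 1 ≤ n → GG n (d + 2) u →
  NN n (d + 2) ≤ (n + r + 1) * u + y →
  Gen ℂ fun x : (Fin u → Fin n → ℂ) × (Fin (r * u) → Fin n → ℂ) ×
      (Fin (r * u) → Fin (r + 1) → ℂ) × (Fin y → Fin n → ℂ) =>
    TraS d x.1 x.2.1 x.2.2.2 ∧ TraV d x.1 x.2.1 x.2.2.1 x.2.2.2

/-! ## the differential Horace step -/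

/-- the conditions on f of degree ≤ d + 2: full points (w i, e_(π i)), (hp (z1 i), e_0),
(hp (z2 i), a i), ((t, z0 i), e_0) kill -/
def KillT (d : ℕ) {n r u v y : ℕ} {I : Type} (π : I → Fin (r + 1)) (w : I → Fin (n + 1) → ℂ)
    (z1 : Fin u → Fin n → ℂ) (z2 : Fin v → Fin n → ℂ) (a : Fin v → Fin (r + 1) → ℂ)
    (z0 : Fin y → Fin n → ℂ) (t : ℂ) : Prop :=
  ∀ f : Fin (r + 1) → MvPolynomial (Fin (n + 1)) ℂ, (∀ j, (f j).totalDegree ≤ d + 2) →
    (∀ i j, eval (w i) (f j) = 0) → (∀ i k, eval (w i) (pderiv k (f (π i))) = 0) →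
    (∀ i j, eval (hp (z1 i)) (f j) = 0) → (∀ i k, eval (hp (z1 i)) (pderiv k (f 0)) = 0) →
    (∀ i j, eval (hp (z2 i)) (f j) = 0) →
    (∀ i k, ∑ j, a i j * eval (hp (z2 i)) (pderiv k (f j)) = 0) →
    (∀ i j, eval (Fin.cons t (z0 i) : Fin (n + 1) → ℂ) (f j) = 0) →
    (∀ i k, eval (Fin.cons t (z0 i) : Fin (n + 1) → ℂ) (pderiv k (f 0)) = 0) → ∀ j, f j = 0

/-- differential Horace -/
def S_DH : Prop := ∀ (n d r u v y : ℕ) (I : Type) [Finite I] (π : I → Fin (r + 1))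
  (w : I → Fin (n + 1) → ℂ) (z1 : Fin u → Fin n → ℂ) (z2 : Fin v → Fin n → ℂ)
  (a : Fin v → Fin (r + 1) → ℂ) (z0 : Fin y → Fin n → ℂ), (∀ i, w i 0 ≠ 0) →
  TraS d z1 z2 z0 → TraV d z1 z2 a z0 → ResZ d π w z1 z2 a z0 →
  ∃ t : ℂ, KillT d π w z1 z2 a z0 t

/-! ## numbers -/

/-- the choice of the numbers -/
def S_NUM : Prop := ∀ n d r : ℕ, 1 ≤ n → 1 ≤ r → r ≤ n → 4 * (n + 1) ^ 2 * (n + 3) ≤ d + 3 →
  ∀ h : ℕ, (r + 1) * NN (n + 1) (d + 2) ≤ (n + r + 2) * h →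
    (n + r + 2) * h < (r + 1) * NN (n + 1) (d + 2) + (n + r + 2) →
  ∃ (u y : ℕ) (p : Fin (r + 1) → ℕ), NN n (d + 2) = (n + r + 1) * u + y ∧ y ≤ n + r ∧
    (r + 1) * u + y + ∑ j, p j = h ∧
    (∀ j, NN (n + 1) d ≤ (n + 1) * p j + ∑ i, p i) ∧
    (n + 1) * p 0 + ∑ i, p i + (n + 1) * y + u ≤ NN (n + 1) (d + 1) ∧
    (∀ j, (n + 1) * p j + ∑ i, p i ≤ NN (n + 1) (d + 1)) ∧
    (∀ j, (n + 3) * p j ≤ NN (n + 1) (d + 2))

/-! ## the result -/

/-- few forms -/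
def S_FEW : Prop := ∀ n d r h : ℕ, 1 ≤ n → 1 ≤ r → r ≤ n → 4 * (n + 1) ^ 2 * (n + 3) ≤ d + 3 →
  (r + 1) * NN (n + 1) (d + 2) ≤ (n + r + 2) * h →
  ∃ (z : Fin h → Fin (n + 1) → ℂ) (a : Fin h → Fin (r + 1) → ℂ) (y : Fin 0 → Fin (n + 1) → ℂ),
    Kill (n + 1) (d + 2) z a y

end Pool.Agent.WarS
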